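import Pool.Agent.helper37.P2.SpecA

/-! Project P2 (MP_063734_an), row MAU: the Levi form of the potential. -/

set_option autoImplicit false

open scoped ContDiff Topology
open MeasureTheory Filter Set Metric

namespace Pool.Agent.P2

theorem MAU_hline {W : Type} [NormedAddCommGroup W] [NormedSpace ℝ W] (p v : W) (s : ℝ) :
    HasDerivAt (fun s : ℝ => p + s • v) v s := by
  have h := ((hasDerivAt_id s).smul_const v).const_add p
  simpa using h

theorem MAU_line {W : Type} [NormedAddCommGroup W] [NormedSpace ℝ W] (g : W → ℝ) (p v : W)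
    (hg : ContDiffAt ℝ 2 g p) :
    deriv (deriv (fun s : ℝ => g (p + s • v))) 0 = fderiv ℝ (fderiv ℝ g) p v v := by
  have h1 : ∀ᶠ q in 𝓝 p, DifferentiableAt ℝ g q := by
    filter_upwards [hg.eventually (by simp)] with q hq
    exact hq.differentiableAt (by simp)
  have h2 : DifferentiableAt ℝ (fderiv ℝ g) p :=
    (hg.fderiv_right (m := 1) (by norm_num)).differentiableAt (by simp)
  have hl : Tendsto (fun s : ℝ => p + s • v) (𝓝 0) (𝓝 p) := by
    have h := (MAU_hline p v 0).continuousAt.tendsto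
    simpa using h
  have e1 : deriv (fun s : ℝ => g (p + s • v)) =ᶠ[𝓝 0] fun s => fderiv ℝ g (p + s • v) v := by
    filter_upwards [hl.eventually h1] with s hs
    exact (hs.hasFDerivAt.comp_hasDerivAt s (MAU_hline p v s)).deriv
  rw [e1.deriv_eq]
  have h0 : HasFDerivAt (fderiv ℝ g) (fderiv ℝ (fderiv ℝ g) p) (p + (0 : ℝ) • v) := by
    rw [zero_smul, add_zero]
    exact h2.hasFDerivAt
  have h3 := h0.comp_hasDerivAt 0 (MAU_hline p v 0)
  have h4 := h3.clm_apply (hasDerivAt_const (0 : ℝ) v)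
  have h5 := h4.deriv
  simpa using h5

theorem MAU_lap (g : ℂ → ℝ) (z : ℂ) (hg : ContDiffAt ℝ 2 g z) :
    lap g z = (1 / 4) * (deriv (deriv (fun s : ℝ => g (z + s • (1 : ℂ)))) 0 +
      deriv (deriv (fun s : ℝ => g (z + s • Complex.I))) 0) := by
  rw [MAU_line g z 1 hg, MAU_line g z Complex.I hg]
  unfold lap
  rw [iteratedFDeriv_two_apply, iteratedFDeriv_two_apply]
  rfl

/-- the Levi form in terms of the second derivative -/
theorem MAU_lev {V : Type} [NormedAddCommGroup V] [NormedSpace ℂ V] [NormedSpace ℝ V] [IsScalarTower ℝ ℂ V]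
    (g : V → ℝ) (p a : V)
    (hg : ContDiffAt ℝ 2 g p) :
    lev g p a = (1 / 4) * (fderiv ℝ (fderiv ℝ g) p a a +
      fderiv ℝ (fderiv ℝ g) p (Complex.I • a) (Complex.I • a)) := by
  unfold lev
  have hc : ContDiff ℝ 2 (fun t : ℂ => p + t • a) :=
    contDiff_const.add (ContinuousLinearMap.contDiff ((ContinuousLinearMap.toSpanSingleton ℂ a).restrictScalars ℝ))
  have hg' : ContDiffAt ℝ 2 (fun t : ℂ => g (p + t • a)) 0 := by
    have h0 : ContDiffAt ℝ 2 g (p + (0 : ℂ) • a) := by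
      rw [zero_smul, add_zero]
      exact hg
    exact h0.comp (0 : ℂ) hc.contDiffAt
  rw [MAU_lap _ _ hg', ← MAU_line g p a hg, ← MAU_line g p (Complex.I • a) hg]
  have e1 : (fun s : ℝ => g (p + (0 + s • (1 : ℂ)) • a)) = fun s : ℝ => g (p + s • a) := by
    ext s
    rw [zero_add, smul_assoc, one_smul]
  have e2 : (fun s : ℝ => g (p + (0 + s • Complex.I) • a)) = fun s : ℝ => g (p + s • (Complex.I • a)) := by
    ext s
    rw [zero_add, smul_assoc]
  rw [e1, e2]

theorem MAU_conjmul {c d : ℝ → ℂ} {c' d' : ℂ} {s : ℝ} (hc : HasDerivAt c c' s) (hd : HasDerivAt d d' s) :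
    HasDerivAt (fun s => ((starRingEnd ℂ) (c s) * d s).re)
      ((starRingEnd ℂ) c' * d s + (starRingEnd ℂ) (c s) * d').re s := by
  have h1 : HasDerivAt (fun s => (starRingEnd ℂ) (c s)) ((starRingEnd ℂ) c') s :=
    (Complex.conjCLE.toContinuousLinearMap.hasFDerivAt.comp_hasDerivAt s hc)
  exact Complex.reCLM.hasFDerivAt.comp_hasDerivAt s (h1.mul hd)

theorem MAU_normSq {c : ℝ → ℂ} {c' : ℂ} {s : ℝ} (hc : HasDerivAt c c' s) :
    HasDerivAt (fun s => Complex.normSq (c s)) (2 * ((starRingEnd ℂ) (c s) * c').re) s := by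
  have h := MAU_conjmul hc hc
  have e1 : (fun s => ((starRingEnd ℂ) (c s) * c s).re) = fun s => Complex.normSq (c s) := by
    ext s
    rw [← Complex.normSq_eq_conj_mul_self, Complex.ofReal_re]
  have e2 : ((starRingEnd ℂ) c' * c s + (starRingEnd ℂ) (c s) * c').re = 2 * ((starRingEnd ℂ) (c s) * c').re := by
    simp only [Complex.add_re, Complex.mul_re, Complex.conj_re, Complex.conj_im]
    ring
  rwa [e1, e2] at h

/-- second derivative of the logarithm along a line -/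
theorem MAU_second {c1 c2 d1 d2 : ℝ → ℂ} {k1 k2 : ℂ} (D : ℝ)
    (h1 : ∀ᶠ s in 𝓝 (0 : ℝ), HasDerivAt c1 (d1 s) s) (h2 : ∀ᶠ s in 𝓝 (0 : ℝ), HasDerivAt c2 (d2 s) s)
    (h3 : HasDerivAt d1 k1 0) (h4 : HasDerivAt d2 k2 0)
    (hN : Complex.normSq (c1 0) + Complex.normSq (c2 0) ≠ 0) :
    deriv (deriv (fun s : ℝ => (1 / 2) * Real.log (Complex.normSq (c1 s) + Complex.normSq (c2 s)) / D)) 0 =
      ((Complex.normSq (d1 0) + Complex.normSq (d2 0) +
        ((starRingEnd ℂ) (c1 0) * k1 + (starRingEnd ℂ) (c2 0) * k2).re) *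
          (Complex.normSq (c1 0) + Complex.normSq (c2 0)) -
        2 * (((starRingEnd ℂ) (c1 0) * d1 0 + (starRingEnd ℂ) (c2 0) * d2 0).re) ^ 2) /
        (Complex.normSq (c1 0) + Complex.normSq (c2 0)) ^ 2 / D := by
  have hNs : ∀ᶠ s in 𝓝 (0 : ℝ), HasDerivAt (fun s => Complex.normSq (c1 s) + Complex.normSq (c2 s))
      (2 * ((starRingEnd ℂ) (c1 s) * d1 s).re + 2 * ((starRingEnd ℂ) (c2 s) * d2 s).re) s := by
    filter_upwards [h1, h2] with s hs1 hs2
    exact (MAU_normSq hs1).add (MAU_normSq hs2)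
  have hne : ∀ᶠ s in 𝓝 (0 : ℝ), Complex.normSq (c1 s) + Complex.normSq (c2 s) ≠ 0 :=
    (hNs.self_of_nhds.continuousAt).eventually_ne hN
  have e1 : deriv (fun s : ℝ => (1 / 2) * Real.log (Complex.normSq (c1 s) + Complex.normSq (c2 s)) / D) =ᶠ[𝓝 0]
      fun s => (((starRingEnd ℂ) (c1 s) * d1 s).re + ((starRingEnd ℂ) (c2 s) * d2 s).re) /
        (Complex.normSq (c1 s) + Complex.normSq (c2 s)) / D := by
    filter_upwards [hNs, hne] with s hs hs'
    have h := ((hs.log hs').const_mul (1 / 2 : ℝ)).div_const D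
    rw [h.deriv]
    ring
  rw [e1.deriv_eq]
  have h5 := (((MAU_conjmul h1.self_of_nhds h3).add (MAU_conjmul h2.self_of_nhds h4)).div
    hNs.self_of_nhds hN).div_const D
  have h6 := h5.deriv
  refine h6.trans ?_
  have e2 : ∀ d : ℂ, ((starRingEnd ℂ) d * d).re = Complex.normSq d := fun d => by
    rw [← Complex.normSq_eq_conj_mul_self, Complex.ofReal_re]
  simp only [Complex.add_re, e2, Pi.add_apply]
  congr 2
  ring

theorem MAU_contDiff_normSq : ContDiff ℝ 2 (Complex.normSq : ℂ → ℝ) := by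
  have e : (Complex.normSq : ℂ → ℝ) = fun z => z.re * z.re + z.im * z.im := by
    ext z
    exact Complex.normSq_apply z
  rw [e]
  have h1 : ContDiff ℝ 2 (fun z : ℂ => z.re) := Complex.reCLM.contDiff
  have h2 : ContDiff ℝ 2 (fun z : ℂ => z.im) := Complex.imCLM.contDiff
  exact (h1.mul h1).add (h2.mul h2)

/-- The Laplacian of the logarithm of the norm of a pair of holomorphic functions. -/
theorem MAU_core (f1 f2 : ℂ → ℂ) (z : ℂ) (D : ℝ) (Ω : Set ℂ) (hΩ : IsOpen Ω) (hz : z ∈ Ω)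
    (h1 : DifferentiableOn ℂ f1 Ω) (h2 : DifferentiableOn ℂ f2 Ω) (hne : f1 z ≠ 0 ∨ f2 z ≠ 0) :
    lap (fun t => (1 / 2) * Real.log (Complex.normSq (f1 t) + Complex.normSq (f2 t)) / D) z =
      (1 / 2) * Complex.normSq (f1 z * deriv f2 z - f2 z * deriv f1 z) /
        (Complex.normSq (f1 z) + Complex.normSq (f2 z)) ^ 2 / D := by
  have hN : Complex.normSq (f1 z) + Complex.normSq (f2 z) ≠ 0 := by
    rcases hne with h | h
    · have := Complex.normSq_pos.2 h
      have := Complex.normSq_nonneg (f2 z)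
      linarith
    · have := Complex.normSq_pos.2 h
      have := Complex.normSq_nonneg (f1 z)
      linarith
  have hmem : Ω ∈ 𝓝 z := hΩ.mem_nhds hz
  have a1 : AnalyticAt ℂ f1 z := h1.analyticAt hmem
  have a2 : AnalyticAt ℂ f2 z := h2.analyticAt hmem
  have c1 : ContDiffAt ℝ 2 f1 z := (a1.contDiffAt (n := 2)).restrict_scalars ℝ
  have c2 : ContDiffAt ℝ 2 f2 z := (a2.contDiffAt (n := 2)).restrict_scalars ℝ
  have hg : ContDiffAt ℝ 2 (fun t => (1 / 2) * Real.log (Complex.normSq (f1 t) + Complex.normSq (f2 t)) / D) z := by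
    have hN2 : ContDiffAt ℝ 2 (fun t => Complex.normSq (f1 t) + Complex.normSq (f2 t)) z :=
      (MAU_contDiff_normSq.contDiffAt.comp z c1).add (MAU_contDiff_normSq.contDiffAt.comp z c2)
    exact (contDiffAt_const.mul (hN2.log hN)).div_const D
  rw [MAU_lap _ _ hg]
  -- derivatives along lines
  have hline : ∀ (f : ℂ → ℂ) (v w : ℂ), DifferentiableAt ℂ f w → ∀ s : ℝ, z + s • v = w →
      HasDerivAt (fun s : ℝ => f (z + s • v)) (deriv f w * v) s := by
    intro f v w hf s hs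
    have h3 : HasDerivAt f (deriv f w) (z + s • v) := by
      rw [hs]
      exact hf.hasDerivAt
    exact h3.comp_of_eq s (MAU_hline z v s) rfl
  have hev : ∀ v : ℂ, ∀ᶠ s : ℝ in 𝓝 0, z + s • v ∈ Ω := by
    intro v
    have hl : Tendsto (fun s : ℝ => z + s • v) (𝓝 0) (𝓝 z) := by
      have h := (MAU_hline z v 0).continuousAt.tendsto
      simpa using h
    exact hl.eventually hmem
  have hd : ∀ f : ℂ → ℂ, DifferentiableOn ℂ f Ω → ∀ v : ℂ, ∀ᶠ s : ℝ in 𝓝 0,
      HasDerivAt (fun s : ℝ => f (z + s • v)) (deriv f (z + s • v) * v) s := by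
    intro f hf v
    filter_upwards [hev v] with s hs
    exact hline f v _ (hf.differentiableAt (hΩ.mem_nhds hs)) s rfl
  have hd2 : ∀ f : ℂ → ℂ, DifferentiableOn ℂ f Ω → ∀ v : ℂ,
      HasDerivAt (fun s : ℝ => deriv f (z + s • v) * v) (deriv (deriv f) z * v * v) 0 := by
    intro f hf v
    have h3 : DifferentiableAt ℂ (deriv f) z := ((hf.deriv hΩ).differentiableAt hmem)
    exact (hline (deriv f) v z h3 0 (by simp)).mul_const v
  have key : ∀ v : ℂ, deriv (deriv (fun s : ℝ => (1 / 2) * Real.log (Complex.normSq (f1 (z + s • v)) +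
      Complex.normSq (f2 (z + s • v))) / D)) 0 = _ := fun v =>
    MAU_second D (hd f1 h1 v) (hd f2 h2 v) (hd2 f1 h1 v) (hd2 f2 h2 v) (by simpa using hN)
  rw [key 1, key Complex.I]
  simp only [zero_smul, add_zero, mul_one]
  rw [← add_div, ← add_div]
  have hrw : ∀ X Y : ℝ, X = Y → (1 / 4 : ℝ) * (X / (Complex.normSq (f1 z) + Complex.normSq (f2 z)) ^ 2 / D) =
      (1 / 4) * Y / (Complex.normSq (f1 z) + Complex.normSq (f2 z)) ^ 2 / D := by
    intro X Y h
    rw [h]
    ring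
  rw [hrw _ (2 * Complex.normSq (f1 z * deriv f2 z - f2 z * deriv f1 z)) ?_]
  · ring
  · simp only [Complex.normSq_apply, Complex.add_re, Complex.sub_re, Complex.sub_im, Complex.mul_re,
      Complex.mul_im, Complex.conj_re, Complex.conj_im, Complex.I_re, Complex.I_im]
    ring

/-- the Levi form of the potential -/
theorem MAU_levu (Ω : Set (ℂ × ℂ)) (P Q : ℂ × ℂ → ℂ) (D : ℝ) (hΩ : IsOpen Ω) (hP : DifferentiableOn ℂ P Ω)
    (hQ : DifferentiableOn ℂ Q Ω) (hne : ∀ p ∈ Ω, P p ≠ 0 ∨ Q p ≠ 0) (p : ℂ × ℂ) (hp : p ∈ Ω) (a : ℂ × ℂ) :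
    lev (uu P Q D) p a = (1 / 2) * Complex.normSq (a.1 * w1 P Q p + a.2 * w2 P Q p) * om P Q p / D := by
  unfold lev uu
  have hc : Continuous (fun t : ℂ => p + t • a) := by fun_prop
  have hd : Differentiable ℂ (fun t : ℂ => p + t • a) := by fun_prop
  have h0 : p + (0 : ℂ) • a = p := by rw [zero_smul, add_zero]
  have hder : HasDerivAt (fun t : ℂ => p + t • a) a 0 := by
    have h := ((hasDerivAt_id (0 : ℂ)).smul_const a).const_add p
    simpa using h
  have hcomp : ∀ F : ℂ × ℂ → ℂ, DifferentiableOn ℂ F Ω → deriv (fun t : ℂ => F (p + t • a)) 0 =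
      a.1 * fderiv ℂ F p (1, 0) + a.2 * fderiv ℂ F p (0, 1) := by
    intro F hF
    have h1 : HasFDerivAt F (fderiv ℂ F p) (p + (0 : ℂ) • a) := by
      rw [h0]
      exact (hF.differentiableAt (hΩ.mem_nhds hp)).hasFDerivAt
    have h3 : HasDerivAt (fun t : ℂ => F (p + t • a)) (fderiv ℂ F p a) 0 := h1.comp_hasDerivAt 0 hder
    rw [h3.deriv]
    have h2 : a = a.1 • ((1, 0) : ℂ × ℂ) + a.2 • ((0, 1) : ℂ × ℂ) := by
      ext <;> simp
    conv_lhs => rw [h2]
    rw [map_add, map_smul, map_smul, smul_eq_mul, smul_eq_mul]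
  rw [MAU_core (fun t => P (p + t • a)) (fun t => Q (p + t • a)) 0 D ((fun t : ℂ => p + t • a) ⁻¹' Ω)
    (hΩ.preimage hc) (by rw [Set.mem_preimage, h0]; exact hp)
    (hP.comp hd.differentiableOn (fun t ht => ht)) (hQ.comp hd.differentiableOn (fun t ht => ht))
    (by rw [h0]; exact hne p hp), hcomp P hP, hcomp Q hQ, h0]
  have e : Complex.normSq (P p * (a.1 * fderiv ℂ Q p (1, 0) + a.2 * fderiv ℂ Q p (0, 1)) -
      Q p * (a.1 * fderiv ℂ P p (1, 0) + a.2 * fderiv ℂ P p (0, 1))) =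
      Complex.normSq (a.1 * w1 P Q p + a.2 * w2 P Q p) := by
    rw [← Complex.normSq_neg]
    congr 1
    unfold w1 w2
    ring
  rw [e]
  unfold om
  rw [div_eq_mul_inv ((1 / 2) * Complex.normSq (a.1 * w1 P Q p + a.2 * w2 P Q p))]

/-- the Levi form is Hermitian -/
theorem MAU_herm (A : ℂ × ℂ → ℝ) (p : ℂ × ℂ) (hA : ContDiffAt ℝ 2 A p) (a : ℂ × ℂ) :
    lev A p a = lev A p (1, 0) * Complex.normSq a.1 + lev A p (0, 1) * Complex.normSq a.2 +
      2 * (lre A p * (a.1 * (starRingEnd ℂ) a.2).re - lim A p * (a.1 * (starRingEnd ℂ) a.2).im) := by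
  unfold lre lim
  rw [MAU_lev A p a hA, MAU_lev A p (1, 0) hA, MAU_lev A p (0, 1) hA, MAU_lev A p (1, 1) hA,
    MAU_lev A p (1, Complex.I) hA]
  have hs : ∀ u v, fderiv ℝ (fderiv ℝ A) p u v = fderiv ℝ (fderiv ℝ A) p v u := fun u v =>
    hA.isSymmSndFDerivAt (by simp) u v
  generalize fderiv ℝ (fderiv ℝ A) p = B at hs
  have hdec : ∀ x y : ℂ, ((x, y) : ℂ × ℂ) = x.re • ((1, 0) : ℂ × ℂ) + x.im • ((Complex.I, 0) : ℂ × ℂ) +
      y.re • ((0, 1) : ℂ × ℂ) + y.im • ((0, Complex.I) : ℂ × ℂ) := by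
    intro x y
    ext <;> simp
  have hB : ∀ x y : ℂ, B (x, y) (x, y) = x.re ^ 2 * B (1, 0) (1, 0) + x.im ^ 2 * B (Complex.I, 0) (Complex.I, 0) +
      y.re ^ 2 * B (0, 1) (0, 1) + y.im ^ 2 * B (0, Complex.I) (0, Complex.I) +
      2 * (x.re * x.im * B (1, 0) (Complex.I, 0) + x.re * y.re * B (1, 0) (0, 1) +
        x.re * y.im * B (1, 0) (0, Complex.I) + x.im * y.re * B (Complex.I, 0) (0, 1) +
        x.im * y.im * B (Complex.I, 0) (0, Complex.I) + y.re * y.im * B (0, 1) (0, Complex.I)) := by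
    intro x y
    rw [hdec x y]
    simp only [map_add, map_smul, _root_.add_apply, _root_.smul_apply, smul_eq_mul]
    rw [hs (Complex.I, 0) (1, 0), hs (0, 1) (1, 0), hs (0, Complex.I) (1, 0), hs (0, 1) (Complex.I, 0),
      hs (0, Complex.I) (Complex.I, 0), hs (0, Complex.I) (0, 1)]
    ring
  obtain ⟨x, y⟩ := a
  have hI : ∀ x y : ℂ, Complex.I • ((x, y) : ℂ × ℂ) = (Complex.I * x, Complex.I * y) := fun x y => rfl
  rw [hI, hI, hI, hI, hI, hB x y, hB (Complex.I * x), hB (Complex.I * 1) (Complex.I * 0), hB (Complex.I * 0),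
    hB (Complex.I * 1) (Complex.I * 1), hB (Complex.I * 1) (Complex.I * Complex.I), hB 1 0, hB 0 1, hB 1 1,
    hB 1 Complex.I]
  simp only [Complex.normSq_apply, Complex.mul_re, Complex.mul_im, Complex.conj_re, Complex.conj_im, Complex.I_re,
    Complex.I_im, Complex.one_re, Complex.one_im, Complex.zero_re, Complex.zero_im]
  ring

theorem MAU : MAU_stmt := by
  intro Ω P Q A D hΩ hP hQ hne hA _ p hp
  have hl := MAU_levu Ω P Q D hΩ hP hQ hne p hp
  have hA2 : ContDiffAt ℝ 2 A p := (hA.contDiffAt (hΩ.mem_nhds hp)).of_le ENat.LEInfty.out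
  refine ⟨?_, hl, ?_⟩
  · rw [MAU_herm A p hA2 (ev P Q p)]
    unfold MA
    have e1 : lre (uu P Q D) p = (1 / 2) * (w1 P Q p * (starRingEnd ℂ) (w2 P Q p)).re * om P Q p / D := by
      unfold lre
      rw [hl, hl, hl]
      simp only [Complex.normSq_apply, Complex.mul_re, Complex.mul_im, Complex.conj_re, Complex.conj_im,
        Complex.one_re, Complex.one_im, Complex.zero_re, Complex.zero_im, Complex.add_re, Complex.add_im]
      ring
    have e2 : lim (uu P Q D) p = (1 / 2) * (w1 P Q p * (starRingEnd ℂ) (w2 P Q p)).im * om P Q p / D := by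
      unfold lim
      rw [hl, hl, hl]
      simp only [Complex.normSq_apply, Complex.mul_re, Complex.mul_im, Complex.conj_re, Complex.conj_im, Complex.I_re,
        Complex.I_im,
        Complex.one_re, Complex.one_im, Complex.zero_re, Complex.zero_im, Complex.add_re, Complex.add_im]
      ring
    rw [e1, e2, hl (1, 0), hl (0, 1)]
    unfold ev
    simp only [Complex.normSq_apply, Complex.mul_re, Complex.mul_im, Complex.conj_re, Complex.conj_im,
        Complex.one_re, Complex.one_im, Complex.zero_re, Complex.zero_im, Complex.add_re, Complex.add_im,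
        Complex.neg_re, Complex.neg_im]
    ring
  · rw [hl]
    unfold ev
    have : -w2 P Q p * w1 P Q p + w1 P Q p * w2 P Q p = 0 := by ring
    simp only [this, Complex.normSq_zero, mul_zero, zero_mul, zero_div]

end Pool.Agent.P2
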