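import Pool.Agent.helper37.P2.SpecA
import Pool.Agent.helper53.P2.MAU

/-! Project P2 (MP_063734_an), row MSS: the mass of a disc. -/

set_option autoImplicit false

open scoped ContDiff Topology
open MeasureTheory Filter Set Metric Pool.Agent.helper37.QA

namespace Pool.Agent.P2

theorem MSS_integrable {κ h : ℂ → ℝ} {Ω : Set ℂ} (hΩ : IsOpen Ω) (hκ : Continuous κ) (hs : tsupport κ ⊆ Ω)
    (hc : HasCompactSupport κ) (hh : ContinuousOn h Ω) : Integrable (fun z => κ z * h z) := by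
  refine Continuous.integrable_of_hasCompactSupport ?_ hc.mul_right
  rw [continuous_iff_continuousAt]
  intro x
  by_cases hx : x ∈ tsupport κ
  · exact hκ.continuousAt.mul (hh.continuousAt (hΩ.mem_nhds (hs hx)))
  · have h1 : (fun z => κ z * h z) =ᶠ[𝓝 x] fun _ => 0 := by
      filter_upwards [notMem_tsupport_iff_eventuallyEq.1 hx] with z hz
      rw [hz, Pi.zero_apply, zero_mul]
    exact (continuousAt_const (y := (0 : ℝ))).congr h1.symm

theorem MSS_ibp1 {κ h : ℂ → ℝ} {Ω : Set ℂ} (hΩ : IsOpen Ω) (hκ : ContDiff ℝ 1 κ) (hs : tsupport κ ⊆ Ω)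
    (hc : HasCompactSupport κ) (hh : ContDiffOn ℝ 1 h Ω) (v : ℂ) :
    ∫ z, κ z * fderiv ℝ h z v = - ∫ z, fderiv ℝ κ z v * h z := by
  have h1 : ContinuousOn (fun z => fderiv ℝ h z v) Ω :=
    (hh.continuousOn_fderiv_of_isOpen hΩ (by simp)).clm_apply continuousOn_const
  have h2 : Continuous (fun z => fderiv ℝ κ z v) :=
    (hκ.continuous_fderiv (by simp)).clm_apply continuous_const
  have h3 : HasCompactSupport (fun z => fderiv ℝ κ z v) := hc.fderiv_apply (𝕜 := ℝ) v
  have h4 : tsupport (fun z => fderiv ℝ κ z v) ⊆ Ω := (tsupport_fderiv_apply_subset ℝ v).trans hs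
  refine integral_mul_fderiv_eq_neg_fderiv_mul_of_integrable ?_ ?_ ?_ ?_ ?_
  · exact MSS_integrable hΩ h2 h4 h3 hh.continuousOn
  · exact MSS_integrable hΩ hκ.continuous hs hc h1
  · exact MSS_integrable hΩ hκ.continuous hs hc hh.continuousOn
  · intro x _
    exact hκ.differentiable (by simp) x
  · intro x hx
    exact (hh.differentiableOn (by simp)).differentiableAt (hΩ.mem_nhds (hs hx))

theorem MSS_ibp2 {κ h : ℂ → ℝ} {Ω : Set ℂ} (hΩ : IsOpen Ω) (hκ : ContDiff ℝ 2 κ) (hs : tsupport κ ⊆ Ω)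
    (hc : HasCompactSupport κ) (hh : ContDiffOn ℝ 2 h Ω) (v : ℂ) :
    ∫ z, κ z * fderiv ℝ (fun w => fderiv ℝ h w v) z v = ∫ z, fderiv ℝ (fun w => fderiv ℝ κ w v) z v * h z := by
  have h1 : ContDiffOn ℝ 1 (fun z => fderiv ℝ h z v) Ω :=
    (hh.fderiv_of_isOpen hΩ (by norm_num)).clm_apply contDiffOn_const
  have h2 : ContDiff ℝ 1 (fun z => fderiv ℝ κ z v) :=
    (hκ.fderiv_right (by norm_num)).clm_apply contDiff_const
  have h3 : HasCompactSupport (fun z => fderiv ℝ κ z v) := hc.fderiv_apply (𝕜 := ℝ) v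
  have h4 : tsupport (fun z => fderiv ℝ κ z v) ⊆ Ω := (tsupport_fderiv_apply_subset ℝ v).trans hs
  rw [MSS_ibp1 hΩ (hκ.of_le (by norm_num)) hs hc h1 v, MSS_ibp1 hΩ h2 h4 h3 (hh.of_le (by norm_num)) v, neg_neg]

theorem MSS_lap {h : ℂ → ℝ} {z : ℂ} (hh : ContDiffAt ℝ 2 h z) :
    lap h z = (1 / 4) * (fderiv ℝ (fun w => fderiv ℝ h w 1) z 1 +
      fderiv ℝ (fun w => fderiv ℝ h w Complex.I) z Complex.I) := by
  have h2 : DifferentiableAt ℝ (fderiv ℝ h) z := (hh.fderiv_right (m := 1) (by norm_num)).differentiableAt (by simp)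
  have h3 : ∀ v : ℂ, fderiv ℝ (fun w => fderiv ℝ h w v) z v = fderiv ℝ (fderiv ℝ h) z v v := by
    intro v
    have h4 : HasFDerivAt (fun w => fderiv ℝ h w v) ((fderiv ℝ (fderiv ℝ h) z).flip v) z := by
      have h5 := h2.hasFDerivAt.clm_apply (hasFDerivAt_const v z)
      simpa using h5
    rw [h4.fderiv]
    rfl
  unfold lap
  rw [iteratedFDeriv_two_apply, iteratedFDeriv_two_apply, h3, h3]
  rfl

theorem MSS_green {κ h : ℂ → ℝ} {Ω : Set ℂ} (hΩ : IsOpen Ω) (hκ : ContDiff ℝ 2 κ) (hs : tsupport κ ⊆ Ω)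
    (hc : HasCompactSupport κ) (hh : ContDiffOn ℝ 2 h Ω) :
    ∫ z, κ z * lap h z = ∫ z, lap κ z * h z := by
  have i1 : ∀ v : ℂ, Integrable (fun z => κ z * fderiv ℝ (fun w => fderiv ℝ h w v) z v) := by
    intro v
    have h1 : ContDiffOn ℝ 1 (fun z => fderiv ℝ h z v) Ω :=
      (hh.fderiv_of_isOpen hΩ (by norm_num)).clm_apply contDiffOn_const
    exact MSS_integrable hΩ hκ.continuous hs hc
      ((h1.continuousOn_fderiv_of_isOpen hΩ (by simp)).clm_apply continuousOn_const)
  have i2 : ∀ v : ℂ, Integrable (fun z => fderiv ℝ (fun w => fderiv ℝ κ w v) z v * h z) := by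
    intro v
    have h2 : ContDiff ℝ 1 (fun z => fderiv ℝ κ z v) :=
      (hκ.fderiv_right (by norm_num)).clm_apply contDiff_const
    have h3 : HasCompactSupport (fun z => fderiv ℝ κ z v) := hc.fderiv_apply (𝕜 := ℝ) v
    have h4 : tsupport (fun z => fderiv ℝ κ z v) ⊆ Ω := (tsupport_fderiv_apply_subset ℝ v).trans hs
    have h5 : HasCompactSupport (fun z => fderiv ℝ (fun w => fderiv ℝ κ w v) z v) := h3.fderiv_apply (𝕜 := ℝ) v
    have h6 : tsupport (fun z => fderiv ℝ (fun w => fderiv ℝ κ w v) z v) ⊆ Ω :=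
      (tsupport_fderiv_apply_subset ℝ v).trans h4
    exact MSS_integrable hΩ ((h2.continuous_fderiv (by simp)).clm_apply continuous_const) h6 h5 hh.continuousOn
  have e1 : (fun z => κ z * lap h z) = fun z => (1 / 4) * (κ z * fderiv ℝ (fun w => fderiv ℝ h w 1) z 1 +
      κ z * fderiv ℝ (fun w => fderiv ℝ h w Complex.I) z Complex.I) := by
    funext z
    by_cases hz : z ∈ tsupport κ
    · rw [MSS_lap (hh.contDiffAt (hΩ.mem_nhds (hs hz)))]
      ring
    · rw [image_eq_zero_of_notMem_tsupport hz]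
      ring
  have e2 : (fun z => lap κ z * h z) = fun z => (1 / 4) * (fderiv ℝ (fun w => fderiv ℝ κ w 1) z 1 * h z +
      fderiv ℝ (fun w => fderiv ℝ κ w Complex.I) z Complex.I * h z) := by
    funext z
    rw [MSS_lap hκ.contDiffAt]
    ring
  rw [e1, e2, integral_const_mul, integral_const_mul, integral_add (i1 1) (i1 Complex.I),
    integral_add (i2 1) (i2 Complex.I), MSS_ibp2 hΩ hκ hs hc hh, MSS_ibp2 hΩ hκ hs hc hh]

theorem MSS : MSS_stmt := by
  intro d f U hd hU Z hZ N
  have hd0 : (0 : ℝ) < (d : ℝ) ^ N := by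
    have : (0 : ℝ) < d := by exact_mod_cast (by omega : 0 < d)
    positivity
  have hball : IsOpen (ball (0 : ℂ) 1) := isOpen_ball
  have hhol : ∀ i, DifferentiableOn ℂ (fun z => It f N (Z z) i) (ball 0 1) := by
    intro i z hz
    have h1 : ∀ j, AnalyticAt ℂ (fun w => Z w j) z := by
      intro j
      have h2 : DifferentiableOn ℂ (fun w => Z w j) (ball 0 1) := fun w hw =>
        (differentiableWithinAt_pi.1 (hZ.1 w hw)) j
      exact h2.analyticAt (hball.mem_nhds hz)
    have h3 := AnalyticAt.aeval_mvPolynomial h1 (iter f.F N i)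
    exact (h3.differentiableAt.differentiableWithinAt)
  have hne : ∀ z ∈ ball (0 : ℂ) 1, It f N (Z z) 0 ≠ 0 ∨ It f N (Z z) 1 ≠ 0 := by
    intro z hz
    by_contra hcon
    push Not at hcon
    obtain ⟨h, hmem⟩ := hZ.2 z hz
    have h1 := iterate_mem hU.1 hmem N
    rw [map_iter] at h1
    exact hU.2 (It f N (Z z)) (pmap_ne (iter_nd f.nondeg N) h) hcon.1 hcon.2 (subset_closure h1)
  have hfun : (fun z => un f N (Z z)) = fun z => (1 / 2) * Real.log (Complex.normSq (It f N (Z z) 0) +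
      Complex.normSq (It f N (Z z) 1)) / (d : ℝ) ^ N := rfl
  have htau : ∀ z ∈ ball (0 : ℂ) 1, tau f N Z z = lap (fun z => un f N (Z z)) z := by
    intro z hz
    rw [hfun, MAU_core (fun z => It f N (Z z) 0) (fun z => It f N (Z z) 1) z _ (ball 0 1) hball hz (hhol 0) (hhol 1)
      (hne z hz)]
    unfold tau pq
    rw [← Complex.normSq_neg, neg_sub]
  refine ⟨htau, ?_⟩
  intro χ hχ hs
  have hc : HasCompactSupport χ := by
    refine IsCompact.of_isClosed_subset (isCompact_closedBall (0 : ℂ) 1) (isClosed_tsupport χ) ?_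
    exact hs.trans ball_subset_closedBall
  have hsm : ContDiffOn ℝ 2 (fun z => un f N (Z z)) (ball 0 1) := by
    intro z hz
    have hmem : ball (0 : ℂ) 1 ∈ 𝓝 z := hball.mem_nhds hz
    have c : ∀ i, ContDiffAt ℝ 2 (fun z => It f N (Z z) i) z := fun i =>
      (((hhol i).analyticAt hmem).contDiffAt (n := 2)).restrict_scalars ℝ
    have hN2 : ContDiffAt ℝ 2 (fun t => Complex.normSq (It f N (Z t) 0) + Complex.normSq (It f N (Z t) 1)) z :=
      (MAU_contDiff_normSq.contDiffAt.comp z (c 0)).add (MAU_contDiff_normSq.contDiffAt.comp z (c 1))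
    have hN : Complex.normSq (It f N (Z z) 0) + Complex.normSq (It f N (Z z) 1) ≠ 0 := by
      rcases hne z hz with h | h
      · have := Complex.normSq_pos.2 h
        have := Complex.normSq_nonneg (It f N (Z z) 1)
        linarith
      · have := Complex.normSq_pos.2 h
        have := Complex.normSq_nonneg (It f N (Z z) 0)
        linarith
    rw [hfun]
    exact ((contDiffAt_const.mul (hN2.log hN)).div_const _).contDiffWithinAt
  rw [← MSS_green hball (hχ.of_le ENat.LEInfty.out) hs hc hsm]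
  refine integral_congr_ae (Eventually.of_forall fun z => ?_)
  change χ z * tau f N Z z = χ z * lap (fun z => un f N (Z z)) z
  by_cases hz : z ∈ ball (0 : ℂ) 1
  · rw [htau z hz]
  · rw [image_eq_zero_of_notMem_tsupport (fun h => hz (hs h)), zero_mul, zero_mul]

end Pool.Agent.P2
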