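import Pool.Agent.helper37.P2.SpecD
import Pool.Agent.helper80.P2.ENC

/-! p2, row AT4: two close graphs, one is the image of a small part of the other. -/

set_option autoImplicit false

open scoped ContDiff Topology
open MeasureTheory Filter Set Metric MvPolynomial Pool.Agent.helper37.QA

namespace Pool.Agent.P2

/-- the measure of the graph -/
noncomputable def AT4_nu {d : ℕ} (f : Endo 2 d) (M : ℕ) (ι : Fin 2) (c : ℂ) (κ : ℝ) (γ : ℂ → ℂ) : Measure ℂ :=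
  (volume.restrict (closedBall (0 : ℂ) (3 / 4))).withDensity (fun ξ => ENNReal.ofReal (gt f M ι c κ γ (ξ, 0)))

theorem AT4_nu_apply {d : ℕ} (f : Endo 2 d) (M : ℕ) (ι : Fin 2) (c : ℂ) (κ : ℝ) (γ : ℂ → ℂ) {S : Set ℂ}
    (hS : MeasurableSet S) : AT4_nu f M ι c κ γ S =
      ∫⁻ ξ in S ∩ closedBall (0 : ℂ) (3 / 4), ENNReal.ofReal (gt f M ι c κ γ (ξ, 0)) := by
  unfold AT4_nu
  rw [withDensity_apply _ hS, Measure.restrict_restrict hS]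

/-- the points with little mass near them -/
def AT4_SM {d : ℕ} (f : Endo 2 d) (M : ℕ) (ι : Fin 2) (c : ℂ) (κ : ℝ) (c' θ : ℝ) (γ : ℂ → ℂ) : Set ℂ :=
  {ξ : ℂ | ξ ∈ closedBall (0 : ℂ) 1 ∧ AT4_nu f M ι c κ γ (ball ξ c') ≤ ENNReal.ofReal θ}

theorem AT4_bad {d : ℕ} (f : Endo 2 d) (M : ℕ) (ι : Fin 2) (c : ℂ) (κ : ℝ) (c' θ C : ℝ) (γ : ℂ → ℂ)
    (hC : MeasurableSet (AT4_SM f M ι c κ c' θ γ) ∧ AT4_nu f M ι c κ γ (AT4_SM f M ι c κ c' θ γ) ≤ ENNReal.ofReal (C * θ)) :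
    ∫⁻ ξ in AT4_SM f M ι c κ c' θ γ ∩ closedBall 0 (1 / 32), ENNReal.ofReal (gt f M ι c κ γ (ξ, 0)) ≤ ENNReal.ofReal (C * θ) := by
  refine le_trans ?_ hC.2
  rw [AT4_nu_apply f M ι c κ γ hC.1]
  exact lintegral_mono_set (inter_subset_inter_right _ (closedBall_subset_closedBall (by norm_num)))

theorem AT4_X {d : ℕ} (f : Endo 2 d) (Z : ℂ → E3) (k : ℕ) (ι : Fin 2) (c : ℂ) (κ : ℝ) (g γ h X : ℂ → ℂ) (hκ : 0 < κ)
    (hZ : DifferentiableOn ℂ Z (ball 0 1)) (hI : Isl f Z k ι c κ g γ) (hh : DifferentiableOn ℂ h (ball 0 1))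
    (hmap : ∀ ζ ∈ ball (0 : ℂ) 1, h ζ ∈ ball (0 : ℂ) 1)
    (hX : ∀ ζ ∈ ball (0 : ℂ) (1 / 2), X ζ ∈ ball (0 : ℂ) (1 / 8) ∧ g (X ζ) = h ζ) : DifferentiableOn ℂ X (ball 0 (1 / 2)) := by
  have hsub : ball (0 : ℂ) (1 / 2) ⊆ ball 0 1 := ball_subset_ball (by norm_num)
  have hW : ∀ i : Fin 3, DifferentiableOn ℂ (fun ζ => It f k (Z (h ζ)) i) (ball 0 (1 / 2)) := by
    intro i
    have h1 : DifferentiableOn ℂ (fun ζ => Z (h ζ)) (ball 0 (1 / 2)) :=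
      hZ.comp (hh.mono hsub) (fun ζ hζ => hmap ζ (hsub hζ))
    exact (ENC_Itd f k i).comp_differentiableOn h1
  have hκ0 : (κ : ℂ) ≠ 0 := by exact_mod_cast hκ.ne'
  obtain ⟨i, j, hij⟩ : ∃ i j : Fin 3, ∀ ζ ∈ ball (0 : ℂ) (1 / 2), It f k (Z (h ζ)) i ≠ 0 ∧
      It f k (Z (h ζ)) j = It f k (Z (h ζ)) i * (c + κ * X ζ) := by
    fin_cases ι
    · refine ⟨0, 1, fun ζ hζ => ?_⟩
      obtain ⟨h1, h2⟩ := hX ζ hζ
      obtain ⟨a, ha, h3⟩ := hI.2.2.2 (X ζ) (ball_subset_ball (by norm_num) h1)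
      rw [h2] at h3
      rw [h3]
      have e0 : (a • gp 0 c κ γ (X ζ, 0)) 0 = a := by simp [gp, cht]
      have e1 : (a • gp 0 c κ γ (X ζ, 0)) 1 = a * (c + κ * X ζ) := by simp [gp, cht]
      exact ⟨by rw [show (a • gp ((fun i => i) ⟨0, by norm_num⟩) c κ γ (X ζ, 0)) 0 = a from e0]; exact ha,
        by rw [show (a • gp ((fun i => i) ⟨0, by norm_num⟩) c κ γ (X ζ, 0)) 0 = a from e0]; exact e1⟩
    · refine ⟨1, 0, fun ζ hζ => ?_⟩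
      obtain ⟨h1, h2⟩ := hX ζ hζ
      obtain ⟨a, ha, h3⟩ := hI.2.2.2 (X ζ) (ball_subset_ball (by norm_num) h1)
      rw [h2] at h3
      rw [h3]
      have e0 : (a • gp 1 c κ γ (X ζ, 0)) 1 = a := by simp [gp, cht]
      have e1 : (a • gp 1 c κ γ (X ζ, 0)) 0 = a * (c + κ * X ζ) := by simp [gp, cht]
      exact ⟨by rw [show (a • gp ((fun i => i) ⟨1, by norm_num⟩) c κ γ (X ζ, 0)) 1 = a from e0]; exact ha,
        by rw [show (a • gp ((fun i => i) ⟨1, by norm_num⟩) c κ γ (X ζ, 0)) 1 = a from e0]; exact e1⟩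
  have hd : DifferentiableOn ℂ (fun ζ => (It f k (Z (h ζ)) j / It f k (Z (h ζ)) i - c) / κ) (ball 0 (1 / 2)) :=
    (((hW j).div (hW i) (fun ζ hζ => (hij ζ hζ).1)).sub_const c).div_const _
  refine hd.congr fun ζ hζ => ?_
  obtain ⟨h1, h2⟩ := hij ζ hζ
  rw [h2]
  field_simp
  ring

theorem AT4_img {d : ℕ} (f : Endo 2 d) (Z : ℂ → E3) (k l : ℕ) (hkl : k ≤ l) (ι : Fin 2) (c : ℂ) (κ : ℝ) (g γ h γ' : ℂ → ℂ)
    (hI : Isl f Z k ι c κ g γ) (hI' : Isl f Z l ι c κ h γ') {x ζ : ℂ} (hx : x ∈ ball (0 : ℂ) 1) (hζ : ζ ∈ ball (0 : ℂ) 1)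
    (hxz : g x = h ζ) : ∃ a : ℂ, a ≠ 0 ∧ It f (l - k) (gp ι c κ γ (x, 0)) = a • gp ι c κ γ' (ζ, 0) := by
  obtain ⟨a, ha, h1⟩ := hI.2.2.2 x hx
  obtain ⟨b, hb, h2⟩ := hI'.2.2.2 ζ hζ
  have h3 : It f (l - k) (It f k (Z (g x))) = It f l (Z (h ζ)) := by
    have : It f (l - k) (It f k (Z (g x))) = It f (l - k + k) (Z (g x)) := (pmap_iter_add f.F (l - k) k (Z (g x))).symm
    rw [this, Nat.sub_add_cancel hkl, hxz]
  rw [h1, h2, ENC_Ithom] at h3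
  have hp : a ^ d ^ (l - k) ≠ 0 := pow_ne_zero _ ha
  refine ⟨(a ^ d ^ (l - k))⁻¹ * b, mul_ne_zero (inv_ne_zero hp) hb, ?_⟩
  rw [mul_smul, ← h3, smul_smul, inv_mul_cancel₀ hp, one_smul]

/-- the second case of `KOE` is impossible -/
theorem AT4_case2 {d : ℕ} (f : Endo 2 d) (N k l n0 : ℕ) (Z : ℂ → E3) (ι : Fin 2) (c : ℂ) (κ c' C3 : ℝ) (g γ h γ' : ℂ → ℂ) (ξ : ℂ)
    (hd : 2 ≤ d) (hC3 : 0 < C3) (hc' : c' ≤ 1 / 16) (hξ : ‖ξ‖ ≤ 1 / 32) (hl : k + n0 ≤ l)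
    (hg : ∀ S : Set ℂ, MeasurableSet S → S ⊆ ball 0 1 → ∫⁻ z in g '' S, ENNReal.ofReal (tau f N Z z) =
        ∫⁻ ξ in S, ENNReal.ofReal (gt f (N - k) ι c κ γ (ξ, 0) / (d : ℝ) ^ k))
    (hh : ∀ S : Set ℂ, MeasurableSet S → S ⊆ ball 0 1 → ∫⁻ z in h '' S, ENNReal.ofReal (tau f N Z z) =
        ∫⁻ ξ in S, ENNReal.ofReal (gt f (N - l) ι c κ γ' (ξ, 0) / (d : ℝ) ^ l))
    (hhC : ∫⁻ ξ in closedBall (0 : ℂ) (3 / 4), ENNReal.ofReal (gt f (N - l) ι c κ γ' (ξ, 0)) ≤ ENNReal.ofReal C3)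
    (hν : ¬ AT4_nu f (N - k) ι c κ γ (ball ξ c') ≤ ENNReal.ofReal (C3 / (d : ℝ) ^ n0))
    (hsub : g '' ball ξ c' ⊆ h '' ball 0 (3 / 4)) : False := by
  apply hν
  have hd0 : (0 : ℝ) < d := by
    have : (2 : ℝ) ≤ d := by exact_mod_cast hd
    linarith
  have hd1 : (1 : ℝ) ≤ d := by
    have : (2 : ℝ) ≤ d := by exact_mod_cast hd
    linarith
  have hb : ball ξ c' ⊆ closedBall (0 : ℂ) (3 / 4) := by
    intro x hx
    rw [mem_ball, dist_eq_norm] at hx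
    rw [mem_closedBall_zero_iff]
    calc ‖x‖ = ‖(x - ξ) + ξ‖ := by rw [sub_add_cancel]
      _ ≤ ‖x - ξ‖ + ‖ξ‖ := norm_add_le _ _
      _ ≤ 3 / 4 := by linarith
  have hb1 : ball ξ c' ⊆ ball (0 : ℂ) 1 := hb.trans (closedBall_subset_ball (by norm_num))
  have e1 := hg (ball ξ c') measurableSet_ball hb1
  have e2 := hh (ball 0 (3 / 4)) measurableSet_ball (ball_subset_ball (by norm_num))
  have hle : ∫⁻ z in g '' ball ξ c', ENNReal.ofReal (tau f N Z z) ≤ ∫⁻ z in h '' ball 0 (3 / 4), ENNReal.ofReal (tau f N Z z) :=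
    lintegral_mono_set hsub
  rw [e1, e2] at hle
  have hdiv : ∀ (M j : ℕ) (γ1 : ℂ → ℂ) (S : Set ℂ), ∫⁻ ξ in S, ENNReal.ofReal (gt f M ι c κ γ1 (ξ, 0) / (d : ℝ) ^ j) =
      ENNReal.ofReal ((d : ℝ) ^ j)⁻¹ * ∫⁻ ξ in S, ENNReal.ofReal (gt f M ι c κ γ1 (ξ, 0)) := by
    intro M j γ1 S
    rw [← lintegral_const_mul' _ _ ENNReal.ofReal_ne_top]
    congr 1
    funext x
    rw [← ENNReal.ofReal_mul (by positivity), div_eq_inv_mul]
  rw [hdiv, hdiv] at hle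
  have h3 : ∫⁻ ξ in ball (0 : ℂ) (3 / 4), ENNReal.ofReal (gt f (N - l) ι c κ γ' (ξ, 0)) ≤ ENNReal.ofReal C3 :=
    (lintegral_mono_set ball_subset_closedBall).trans hhC
  have e3 : AT4_nu f (N - k) ι c κ γ (ball ξ c') = ∫⁻ ξ in ball ξ c', ENNReal.ofReal (gt f (N - k) ι c κ γ (ξ, 0)) := by
    rw [AT4_nu_apply f (N - k) ι c κ γ measurableSet_ball, inter_eq_left.mpr hb]
  rw [e3]
  have h4 : ENNReal.ofReal ((d : ℝ) ^ k)⁻¹ * ∫⁻ ξ in ball ξ c', ENNReal.ofReal (gt f (N - k) ι c κ γ (ξ, 0)) ≤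
      ENNReal.ofReal ((d : ℝ) ^ k)⁻¹ * ENNReal.ofReal (C3 / (d : ℝ) ^ n0) := by
    refine hle.trans ((mul_le_mul_right h3 _).trans ?_)
    rw [← ENNReal.ofReal_mul (by positivity), ← ENNReal.ofReal_mul (by positivity)]
    apply ENNReal.ofReal_le_ofReal
    have h5 : (d : ℝ) ^ (k + n0) ≤ (d : ℝ) ^ l := pow_le_pow_right₀ hd1 hl
    have h6 : ((d : ℝ) ^ l)⁻¹ ≤ ((d : ℝ) ^ (k + n0))⁻¹ := by
      apply inv_anti₀ (by positivity) h5
    calc ((d : ℝ) ^ l)⁻¹ * C3 ≤ ((d : ℝ) ^ (k + n0))⁻¹ * C3 := mul_le_mul_of_nonneg_right h6 hC3.le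
      _ = ((d : ℝ) ^ k)⁻¹ * (C3 / (d : ℝ) ^ n0) := by
          rw [pow_add]
          field_simp
  have h7 : ENNReal.ofReal ((d : ℝ) ^ k)⁻¹ ≠ 0 := by
    rw [Ne, ENNReal.ofReal_eq_zero, not_le]
    positivity
  exact (ENNReal.mul_le_mul_iff_right h7 ENNReal.ofReal_ne_top).mp h4

theorem AT4 (hUNI : UNI_stmt) (hISM : ISM_stmt) (hFAM : FAM_stmt) (hBK1 : BK1_stmt) (hKOE : KOE_stmt)
    (hSMM : SMM_stmt) (hPGH : PGH_stmt) (hMZP : MZP_stmt) : AT4_stmt := by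
  intro d f U hd hU Kb κ α hKb hκ hκ1 hα
  obtain ⟨c', hc0, hc1, hK⟩ := hKOE
  obtain ⟨CS, hCS, hS⟩ := hSMM c' hc0
  obtain ⟨C3, hC3, hI3⟩ := hISM d f U hd hU
  obtain ⟨CB, hCB, hB⟩ := hBK1 d f U hd hU κ Kb hκ hκ1 hKb
  obtain ⟨CF, hCF, hF⟩ := hFAM d f U hd hU κ Kb hκ hκ1 hKb
  have hd0 : (0 : ℝ) < d := by
    have : (2 : ℝ) ≤ d := by exact_mod_cast hd
    linarith
  obtain ⟨n0, hn0, hn1⟩ : ∃ n0 : ℕ, 0 < n0 ∧ CB * (CS * (C3 / (d : ℝ) ^ n0)) ≤ α / 4 := by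
    obtain ⟨n, hn⟩ := exists_nat_ge (CB * CS * C3 / (α / 4))
    refine ⟨n + 1, Nat.succ_pos n, ?_⟩
    have h1 : ((n + 1 : ℕ) : ℝ) ≤ (d : ℝ) ^ (n + 1) := by
      have h2 : n + 1 < 2 ^ (n + 1) := Nat.lt_two_pow_self
      have h3 : 2 ^ (n + 1) ≤ d ^ (n + 1) := Nat.pow_le_pow_left hd _
      have h4 : n + 1 ≤ d ^ (n + 1) := by omega
      exact_mod_cast h4
    have h2 : CB * CS * C3 / (α / 4) ≤ (d : ℝ) ^ (n + 1) := by
      push_cast at h1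
      linarith
    rw [div_le_iff₀ (by positivity)] at h2
    have h3 : CB * (CS * (C3 / (d : ℝ) ^ (n + 1))) = CB * CS * C3 / (d : ℝ) ^ (n + 1) := by ring
    rw [h3, div_le_iff₀ (by positivity)]
    linarith
  set θ : ℝ := C3 / (d : ℝ) ^ n0 with hθ
  have hθ0 : 0 ≤ θ := by positivity
  obtain ⟨T, L0, hP⟩ := hPGH (3 * α / 4) n0 (by positivity) hn0
  refine ⟨T, L0, ?_⟩
  intro V L N Z r hV hVU hL hLN hZ hm hub hNon
  have hZU : Dsc U Z := ⟨hZ.1, fun z hz => by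
    obtain ⟨h1, h2⟩ := hZ.2 z hz
    exact ⟨h1, hVU h2⟩⟩
  unfold Non at hNon
  push Not at hNon
  obtain ⟨ι, c, γ₀, hc2, hsum⟩ := hNon
  have hSD : ∀ k : ℕ, k ≤ N → SD f U N k Z Kb c := fun k hk => ⟨hk, hZU, hm, hub, hc2⟩
  have hfam : ∀ k : ℕ, ∃ (n : ℕ) (A : Fin n → ID), k ≤ N → Fam f N Z k ι c κ CF n A := by
    intro k
    by_cases hk : k ≤ N
    · obtain ⟨n, A, h⟩ := hF N k Z ι c (hSD k hk)
      exact ⟨n, A, fun _ => h⟩
    · exact ⟨0, Fin.elim0, fun h => absurd h hk⟩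
  choose nn AA hAA using hfam
  obtain ⟨hprob, hz1, hz2, hz3⟩ := hMZP d f U N Z hd hU hZU (by linarith)
  -- the sets
  set P : ℕ → Set ℂ := fun k => ⋃ a : Fin (nn k), ⋃ (_ : Clo γ₀ r (AA k a).γ), (AA k a).g '' closedBall (0 : ℂ) (1 / 32) with hPdef
  set SMk : (k : ℕ) → Fin (nn k) → Set ℂ := fun k a => AT4_SM f (N - k) ι c κ c' θ (AA k a).γ ∩ closedBall (0 : ℂ) (1 / 32) with hSMk
  set S : ℕ → Set ℂ := fun k => ⋃ a : Fin (nn k), (AA k a).g '' SMk k a with hSdef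
  classical
  set B : ℕ → Set ℂ := fun k => if k ≤ N then P k \ S k else ∅ with hBdef
  have hcb : closedBall (0 : ℂ) (1 / 32) ⊆ ball 0 1 := closedBall_subset_ball (by norm_num)
  have hNI : ∀ k, k ≤ N → ∀ a : Fin (nn k), NI f Z k ι c κ (AA k a).g (AA k a).γ := fun k hk a => ((hAA k hk).isl a).2.2
  have hinj : ∀ k, k ≤ N → ∀ a : Fin (nn k), InjOn (AA k a).g (ball 0 1) := fun k hk a =>
    ((hUNI d f V Z k ι c κ hV hZ hκ).2 _ _ (hNI k hk a).1).1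
  have hcont : ∀ k, k ≤ N → ∀ a : Fin (nn k), ContinuousOn (AA k a).g (ball 0 1) := fun k hk a =>
    (hNI k hk a).1.1.continuousOn
  have hPm : ∀ k, k ≤ N → MeasurableSet (P k) := by
    intro k hk
    refine MeasurableSet.iUnion fun a => MeasurableSet.iUnion fun _ => ?_
    exact ((isCompact_closedBall (0 : ℂ) (1 / 32)).image_of_continuousOn ((hcont k hk a).mono hcb)).isClosed.measurableSet
  have hSMm : ∀ (k : ℕ) (γ : ℂ → ℂ), MeasurableSet (AT4_SM f (N - k) ι c κ c' θ γ) ∧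
      AT4_nu f (N - k) ι c κ γ (AT4_SM f (N - k) ι c κ c' θ γ) ≤ ENNReal.ofReal (CS * θ) := fun k γ =>
    hS (AT4_nu f (N - k) ι c κ γ) θ hθ0
  have hSm : ∀ k, k ≤ N → MeasurableSet (S k) := by
    intro k hk
    refine MeasurableSet.iUnion fun a => ?_
    exact ((hSMm k (AA k a).γ).1.inter measurableSet_closedBall).image_of_continuousOn_injOn
      ((hcont k hk a).mono (inter_subset_right.trans hcb)) ((hinj k hk a).mono (inter_subset_right.trans hcb))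
  have hBm : ∀ k, MeasurableSet (B k) := by
    intro k
    rw [hBdef]
    dsimp only
    split_ifs with hk
    · exact (hPm k hk).diff (hSm k hk)
    · exact MeasurableSet.empty
  -- the inequality at time k
  have hmain : ∀ k ∈ Finset.Ico 1 L, mz f N Z (Pt f Z k ι c κ (fun γ _ => Clo γ₀ r γ)) ≤ mz f N Z (B k) + ENNReal.ofReal (α / 4) := by
    intro k hk
    rw [Finset.mem_Ico] at hk
    have hkN : k ≤ N := by omega
    have h1 : Pt f Z k ι c κ (fun γ _ => Clo γ₀ r γ) ⊆ P k ∪ {z : ℂ | eta z ≠ 0}ᶜ := by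
      rintro z ⟨g, γ, ξ, hg, hξ, hgξ, hclo⟩
      by_cases he : eta z ≠ 0
      · left
        have hξ' : ξ ∈ closedBall (0 : ℂ) (1 / 32) := mem_closedBall_zero_iff.mpr hξ
        obtain ⟨a, ha1, ha2⟩ := (hAA k hkN).all g γ hg ⟨ξ, hξ', by rw [hgξ]; exact he⟩
        rw [hPdef]
        refine mem_iUnion.mpr ⟨a, mem_iUnion.mpr ⟨?_, ξ, hξ', ?_⟩⟩
        · rw [← ha2]; exact hclo
        · rw [← ha1]; exact hgξ
      · right
        exact he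
    have h2 : mz f N Z (Pt f Z k ι c κ (fun γ _ => Clo γ₀ r γ)) ≤ mz f N Z (P k) := by
      refine (measure_mono h1).trans ((measure_union_le _ _).trans ?_)
      rw [hz1, add_zero]
    have h3 : mz f N Z (P k) ≤ mz f N Z (B k) + mz f N Z (S k) := by
      have : P k ⊆ B k ∪ S k := by
        intro z hz
        by_cases hzS : z ∈ S k
        · exact Or.inr hzS
        · left
          rw [hBdef]
          dsimp only
          rw [if_pos hkN]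
          exact ⟨hz, hzS⟩
      exact (measure_mono this).trans (measure_union_le _ _)
    have h4 : mz f N Z (S k) ≤ ENNReal.ofReal (α / 4) := by
      have h5 := hB N k Z ι c (hSD k hkN) (fun γ ξ => AT4_nu f (N - k) ι c κ γ (ball ξ c') ≤ ENNReal.ofReal θ) (CS * θ) (by positivity) ?_
      · refine (measure_mono ?_).trans (h5.trans (ENNReal.ofReal_le_ofReal hn1))
        intro z hz
        rw [hSdef] at hz
        obtain ⟨a, ξ, hξ, hgξ⟩ := mem_iUnion.mp hz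
        exact ⟨(AA k a).g, (AA k a).γ, ξ, hNI k hkN a, mem_closedBall_zero_iff.mp hξ.2, hgξ, hξ.1.2⟩
      · intro g γ _
        refine ⟨AT4_SM f (N - k) ι c κ c' θ γ, (hSMm k γ).1, ?_, AT4_bad f (N - k) ι c κ c' θ CS γ (hSMm k γ)⟩
        intro ξ hξ hR
        refine ⟨?_, hR⟩
        rw [mem_closedBall_zero_iff]
        linarith
    exact h2.trans (h3.trans (add_le_add_right h4 _))
  have hsum2 : ENNReal.ofReal (3 * α / 4 * L) ≤ ∑ k ∈ Finset.Ico 1 L, mz f N Z (B k) := by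
    have h1 : ENNReal.ofReal (α * L) ≤ ∑ k ∈ Finset.Ico 1 L, mz f N Z (B k) + ENNReal.ofReal (α / 4 * L) := by
      refine hsum.le.trans ((Finset.sum_le_sum hmain).trans ?_)
      rw [Finset.sum_add_distrib]
      refine add_le_add_right ?_ _
      rw [Finset.sum_const, Nat.card_Ico, nsmul_eq_mul]
      have h2 : (((L - 1 : ℕ) : ENNReal)) ≤ ENNReal.ofReal (L : ℝ) := by
        rw [ENNReal.ofReal_natCast]
        exact_mod_cast Nat.sub_le L 1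
      calc ((L - 1 : ℕ) : ENNReal) * ENNReal.ofReal (α / 4) ≤ ENNReal.ofReal (L : ℝ) * ENNReal.ofReal (α / 4) :=
            mul_le_mul_left h2 _
        _ = ENNReal.ofReal (α / 4 * L) := by
            rw [mul_comm, ← ENNReal.ofReal_mul (by positivity)]
    have h2 : ENNReal.ofReal (α * L) = ENNReal.ofReal (3 * α / 4 * L) + ENNReal.ofReal (α / 4 * L) := by
      rw [← ENNReal.ofReal_add (by positivity) (by positivity)]
      congr 1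
      ring
    rw [h2] at h1
    exact (ENNReal.add_le_add_iff_right ENNReal.ofReal_ne_top).mp h1
  obtain ⟨z, hzE, k, l, hk1, hkl, hlL, hlT, hzk, hzl⟩ := hP L hL (mz f N Z) B {z : ℂ | eta z ≠ 0} hBm hz3 hz1 hsum2
  have hkN : k ≤ N := by omega
  have hlN : l ≤ N := by omega
  have hun : ∀ j, j ≤ N → z ∈ B j → ∃ (a : Fin (nn j)) (ξ : ℂ), Clo γ₀ r (AA j a).γ ∧ ‖ξ‖ ≤ 1 / 32 ∧ (AA j a).g ξ = z ∧
      ¬ AT4_nu f (N - j) ι c κ (AA j a).γ (ball ξ c') ≤ ENNReal.ofReal θ := by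
    intro j hj hz
    rw [hBdef] at hz
    dsimp only at hz
    rw [if_pos hj] at hz
    obtain ⟨hzP, hzS⟩ := hz
    rw [hPdef] at hzP
    obtain ⟨a, ha⟩ := mem_iUnion.mp hzP
    obtain ⟨hclo, ξ, hξ, hgξ⟩ := mem_iUnion.mp ha
    refine ⟨a, ξ, hclo, mem_closedBall_zero_iff.mp hξ, hgξ, fun hc => hzS ?_⟩
    rw [hSdef]
    refine mem_iUnion.mpr ⟨a, ξ, ⟨⟨?_, hc⟩, hξ⟩, hgξ⟩
    exact closedBall_subset_closedBall (by norm_num) hξ
  obtain ⟨a, ξ, hclo, hξ, hgξ, hν⟩ := hun k hkN hzk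
  obtain ⟨b, ζ, hclo', hζ, hhζ, -⟩ := hun l hlN hzl
  have hg := hNI k hkN a
  have hh := hNI l hlN b
  set g := (AA k a).g with hgdef
  set γ := (AA k a).γ with hγdef
  set h := (AA l b).g with hhdef
  set γ' := (AA l b).γ with hγ'def
  have hginj := hinj k hkN a
  have hhinj := hinj l hlN b
  have hkc := hK g h ξ ζ hg.1.1 hginj hh.1.1 hhinj hξ hζ (hgξ.trans hhζ.symm)
  have hcone : ∀ x ∈ ball (0 : ℂ) 1, gp ι c κ γ (x, 0) ∈ cone V := ((hUNI d f V Z k ι c κ hV hZ hκ).2 _ _ hg.1).2.1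
  have hcone' : ∀ x ∈ ball (0 : ℂ) 1, gp ι c κ γ' (x, 0) ∈ cone V := ((hUNI d f V Z l ι c κ hV hZ hκ).2 _ _ hh.1).2.1
  have hfirst : h '' ball 0 (1 / 2) ⊆ g '' ball 0 (1 / 8) := by
    rcases hkc with h1 | h1
    · exact h1
    · exfalso
      obtain ⟨-, -, hm1, -⟩ := hI3 N k Z ι c κ g γ hκ hκ1 hkN hZU hc2 hg.1
      obtain ⟨-, hm2, hm3, -⟩ := hI3 N l Z ι c κ h γ' hκ hκ1 hlN hZU hc2 hh.1
      exact AT4_case2 f N k l n0 Z ι c κ c' C3 g γ h γ' ξ hd hC3 hc1 hξ hkl hm1 hm3 hm2 hν h1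
  have hXex : ∀ x : ℂ, ∃ y : ℂ, x ∈ ball (0 : ℂ) (1 / 2) → y ∈ ball (0 : ℂ) (1 / 8) ∧ g y = h x := by
    intro x
    by_cases hx : x ∈ ball (0 : ℂ) (1 / 2)
    · obtain ⟨y, hy1, hy2⟩ := hfirst ⟨x, hx, rfl⟩
      exact ⟨y, fun _ => ⟨hy1, hy2⟩⟩
    · exact ⟨0, fun hh => absurd hh hx⟩
  choose X hX using hXex
  refine ⟨ι, c, γ, γ', X, l - k, hc2, by omega, by omega, ?_, ?_, ?_⟩
  · exact AT4_X f Z k ι c κ g γ h X hκ hZ.1 hg.1 hh.1.1 hh.1.2.1 hX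
  · intro x hx
    obtain ⟨h1, h2⟩ := hX x hx
    have h3 : X x ∈ ball (0 : ℂ) 1 := ball_subset_ball (by norm_num) h1
    have h4 : x ∈ ball (0 : ℂ) 1 := ball_subset_ball (by norm_num) hx
    exact ⟨h1, hcone _ h3, hcone' _ h4, AT4_img f Z k l (by omega) ι c κ g γ h γ' hg.1 hh.1 h3 h4 h2⟩
  · intro x hx
    have h1 := hclo x hx
    have h2 := hclo' x hx
    calc ‖γ x - γ' x‖ = ‖(γ x - γ₀ x) - (γ' x - γ₀ x)‖ := by congr 1; ring
      _ ≤ ‖γ x - γ₀ x‖ + ‖γ' x - γ₀ x‖ := norm_sub_le _ _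
      _ ≤ 2 * r := by linarith

end Pool.Agent.P2
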