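import Pool.Agent.helper37.P2.SpecA
import Pool.Agent.helper53.P2.MSS

/-! Project P2 (MP_063734_an), row INTA. -/

set_option autoImplicit false

open scoped ContDiff Topology
open MeasureTheory Filter Set Metric Pool.Agent.helper37.QA

namespace Pool.Agent.P2

theorem INTA_sec {N S N1 S1 : ℝ → ℝ} {N2 S2 : ℝ} (a b : ℝ) (hN : ∀ᶠ s in 𝓝 (0 : ℝ), HasDerivAt N (N1 s) s)
    (hS : ∀ᶠ s in 𝓝 (0 : ℝ), HasDerivAt S (S1 s) s) (hN2 : HasDerivAt N1 N2 0) (hS2 : HasDerivAt S1 S2 0)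
    (h0 : N 0 ≠ 0) :
    deriv (deriv (fun s => a * Real.log (N s) + b * (S s / N s))) 0 =
      a * ((N2 * N 0 - N1 0 ^ 2) / N 0 ^ 2) +
        b * ((S2 * N 0 ^ 2 - 2 * (S1 0 * N1 0) * N 0 - S 0 * N2 * N 0 + 2 * S 0 * N1 0 ^ 2) / N 0 ^ 3) := by
  have hne : ∀ᶠ s in 𝓝 (0 : ℝ), N s ≠ 0 := (hN.self_of_nhds.continuousAt).eventually_ne h0
  have e1 : deriv (fun s => a * Real.log (N s) + b * (S s / N s)) =ᶠ[𝓝 0]
      fun s => a * (N1 s / N s) + b * ((S1 s * N s - S s * N1 s) / N s ^ 2) := by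
    filter_upwards [hN, hS, hne] with s h1 h2 h3
    exact (((h1.log h3).const_mul a).add ((h2.div h1 h3).const_mul b)).deriv
  rw [e1.deriv_eq]
  have h1 := hN.self_of_nhds
  have h2 := hS.self_of_nhds
  have h3 := ((hN2.div h1 h0).const_mul a).add
    ((((hS2.mul h1).sub (h2.mul hN2)).div (h1.pow 2) (pow_ne_zero 2 h0)).const_mul b)
  refine h3.deriv.trans ?_
  simp only [Pi.mul_apply, Pi.pow_apply, Pi.sub_apply]
  field_simp
  push_cast
  ring

theorem INTA_lap (m0 m1 m2 h : ℂ → ℂ) (z : ℂ) (a b : ℝ) (Ω : Set ℂ) (hΩ : IsOpen Ω) (hz : z ∈ Ω)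
    (h0 : DifferentiableOn ℂ m0 Ω) (h1 : DifferentiableOn ℂ m1 Ω) (h2 : DifferentiableOn ℂ m2 Ω)
    (hh : DifferentiableOn ℂ h Ω) (hne : Complex.normSq (m0 z) + Complex.normSq (m1 z) + Complex.normSq (m2 z) ≠ 0) :
    ContDiffAt ℝ 2 (fun t => a * Real.log (Complex.normSq (m0 t) + Complex.normSq (m1 t) + Complex.normSq (m2 t)) +
      b * (Complex.normSq (h t) / (Complex.normSq (m0 t) + Complex.normSq (m1 t) + Complex.normSq (m2 t)))) z ∧
    lap (fun t => a * Real.log (Complex.normSq (m0 t) + Complex.normSq (m1 t) + Complex.normSq (m2 t)) +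
      b * (Complex.normSq (h t) / (Complex.normSq (m0 t) + Complex.normSq (m1 t) + Complex.normSq (m2 t)))) z =
      a * (((Complex.normSq (deriv m0 z) + Complex.normSq (deriv m1 z) + Complex.normSq (deriv m2 z)) *
        (Complex.normSq (m0 z) + Complex.normSq (m1 z) + Complex.normSq (m2 z)) -
        Complex.normSq (deriv m0 z * (starRingEnd ℂ) (m0 z) + deriv m1 z * (starRingEnd ℂ) (m1 z) +
          deriv m2 z * (starRingEnd ℂ) (m2 z))) /
          (Complex.normSq (m0 z) + Complex.normSq (m1 z) + Complex.normSq (m2 z)) ^ 2) +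
      b * ((Complex.normSq (deriv h z) * (Complex.normSq (m0 z) + Complex.normSq (m1 z) + Complex.normSq (m2 z)) ^ 2 -
        2 * ((starRingEnd ℂ) (h z) * deriv h z * (starRingEnd ℂ) (deriv m0 z * (starRingEnd ℂ) (m0 z) +
          deriv m1 z * (starRingEnd ℂ) (m1 z) + deriv m2 z * (starRingEnd ℂ) (m2 z))).re *
            (Complex.normSq (m0 z) + Complex.normSq (m1 z) + Complex.normSq (m2 z)) -
        Complex.normSq (h z) * (Complex.normSq (deriv m0 z) + Complex.normSq (deriv m1 z) + Complex.normSq (deriv m2 z)) *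
          (Complex.normSq (m0 z) + Complex.normSq (m1 z) + Complex.normSq (m2 z)) +
        2 * Complex.normSq (h z) * Complex.normSq (deriv m0 z * (starRingEnd ℂ) (m0 z) +
          deriv m1 z * (starRingEnd ℂ) (m1 z) + deriv m2 z * (starRingEnd ℂ) (m2 z))) /
          (Complex.normSq (m0 z) + Complex.normSq (m1 z) + Complex.normSq (m2 z)) ^ 3) := by
  have hmem : Ω ∈ 𝓝 z := hΩ.mem_nhds hz
  have cd : ∀ f : ℂ → ℂ, DifferentiableOn ℂ f Ω → ContDiffAt ℝ 2 (fun t => Complex.normSq (f t)) z := fun f hf =>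
    MAU_contDiff_normSq.contDiffAt.comp z (((hf.analyticAt hmem).contDiffAt (n := 2)).restrict_scalars ℝ)
  have hg : ContDiffAt ℝ 2 (fun t => a * Real.log (Complex.normSq (m0 t) + Complex.normSq (m1 t) + Complex.normSq (m2 t)) +
      b * (Complex.normSq (h t) / (Complex.normSq (m0 t) + Complex.normSq (m1 t) + Complex.normSq (m2 t)))) z := by
    have hN : ContDiffAt ℝ 2 (fun t => Complex.normSq (m0 t) + Complex.normSq (m1 t) + Complex.normSq (m2 t)) z :=
      ((cd m0 h0).add (cd m1 h1)).add (cd m2 h2)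
    exact (contDiffAt_const.mul (hN.log hne)).add (contDiffAt_const.mul ((cd h hh).div hN hne))
  refine ⟨hg, ?_⟩
  rw [MAU_lap _ _ hg]
  have hline : ∀ (f : ℂ → ℂ) (v w : ℂ), DifferentiableAt ℂ f w → ∀ s : ℝ, z + s • v = w →
      HasDerivAt (fun s : ℝ => f (z + s • v)) (deriv f w * v) s := by
    intro f v w hf s hs
    have h3 : HasDerivAt f (deriv f w) (z + s • v) := by
      rw [hs]
      exact hf.hasDerivAt
    exact h3.comp_of_eq s (MAU_hline z v s) rfl
  have hev : ∀ v : ℂ, ∀ᶠ s : ℝ in 𝓝 0, z + s • v ∈ Ω := by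
    intro v
    have hl : Tendsto (fun s : ℝ => z + s • v) (𝓝 0) (𝓝 z) := by
      have h := (MAU_hline z v 0).continuousAt.tendsto
      simpa using h
    exact hl.eventually hmem
  have hd : ∀ f : ℂ → ℂ, DifferentiableOn ℂ f Ω → ∀ v : ℂ, ∀ᶠ s : ℝ in 𝓝 0,
      HasDerivAt (fun s : ℝ => Complex.normSq (f (z + s • v)))
        (2 * ((starRingEnd ℂ) (f (z + s • v)) * (deriv f (z + s • v) * v)).re) s := by
    intro f hf v
    filter_upwards [hev v] with s hs
    exact MAU_normSq (hline f v _ (hf.differentiableAt (hΩ.mem_nhds hs)) s rfl)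
  have hd2 : ∀ f : ℂ → ℂ, DifferentiableOn ℂ f Ω → ∀ v : ℂ,
      HasDerivAt (fun s : ℝ => 2 * ((starRingEnd ℂ) (f (z + s • v)) * (deriv f (z + s • v) * v)).re)
        (2 * ((starRingEnd ℂ) (deriv f z * v) * (deriv f z * v) +
          (starRingEnd ℂ) (f z) * (deriv (deriv f) z * v * v)).re) 0 := by
    intro f hf v
    have h3 : DifferentiableAt ℂ (deriv f) z := ((hf.deriv hΩ).differentiableAt hmem)
    have h4 := (hline (deriv f) v z h3 0 (by simp)).mul_const v
    have h5 := hline f v z (hf.differentiableAt hmem) 0 (by simp)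
    have h6 := (MAU_conjmul h5 h4).const_mul 2
    simpa using h6
  have key : ∀ v : ℂ, deriv (deriv (fun s : ℝ => a * Real.log (Complex.normSq (m0 (z + s • v)) +
      Complex.normSq (m1 (z + s • v)) + Complex.normSq (m2 (z + s • v))) +
      b * (Complex.normSq (h (z + s • v)) / (Complex.normSq (m0 (z + s • v)) +
      Complex.normSq (m1 (z + s • v)) + Complex.normSq (m2 (z + s • v)))))) 0 = _ := fun v =>
    INTA_sec a b (by
      filter_upwards [hd m0 h0 v, hd m1 h1 v, hd m2 h2 v] with s g0 g1 g2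
      exact (g0.add g1).add g2) (hd h hh v)
      (((hd2 m0 h0 v).add (hd2 m1 h1 v)).add (hd2 m2 h2 v)) (hd2 h hh v) (by simpa using hne)
  rw [key 1, key Complex.I]
  simp only [zero_smul, add_zero, mul_one, Pi.add_apply]
  generalize deriv (deriv m0) z = k0
  generalize deriv (deriv m1) z = k1
  generalize deriv (deriv m2) z = k2
  generalize deriv (deriv h) z = kh
  generalize deriv m0 z = d0
  generalize deriv m1 z = d1
  generalize deriv m2 z = d2
  generalize deriv h z = dh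
  generalize m0 z = u0 at *
  generalize m1 z = u1 at *
  generalize m2 z = u2 at *
  generalize h z = uh at *
  set N : ℝ := Complex.normSq u0 + Complex.normSq u1 + Complex.normSq u2 with hN
  clear_value N
  simp only [Complex.normSq_apply, Complex.add_re, Complex.add_im, Complex.mul_re, Complex.mul_im, Complex.conj_re,
    Complex.conj_im, Complex.I_re, Complex.I_im]
  ring

/-- Hermitian product -/
noncomputable def INTA_ip (v w : E3) : ℂ :=
  v 0 * (starRingEnd ℂ) (w 0) + v 1 * (starRingEnd ℂ) (w 1) + v 2 * (starRingEnd ℂ) (w 2)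

theorem INTA_nq (v : E3) : nq v = Complex.normSq (v 0) + Complex.normSq (v 1) + Complex.normSq (v 2) := by
  unfold nq
  rw [Fin.sum_univ_three]

theorem INTA_nq_nonneg (v : E3) : 0 ≤ nq v := Finset.sum_nonneg fun _ _ => Complex.normSq_nonneg _

theorem INTA_nq_pos (v : E3) (hv : v ≠ 0) : 0 < nq v := by
  obtain ⟨i, hi⟩ := Function.ne_iff.1 hv
  exact Finset.sum_pos' (fun _ _ => Complex.normSq_nonneg _) ⟨i, Finset.mem_univ _, Complex.normSq_pos.2 hi⟩

theorem INTA_lag (u v : E3) : nq (crs u v) = nq u * nq v - Complex.normSq (INTA_ip v u) := by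
  rw [INTA_nq, INTA_nq, INTA_nq]
  simp only [crs, INTA_ip, Matrix.cons_val_zero, Matrix.cons_val_one, Matrix.cons_val, Complex.normSq_apply,
    Complex.sub_re, Complex.sub_im, Complex.add_re, Complex.add_im, Complex.mul_re, Complex.mul_im, Complex.conj_re,
    Complex.conj_im]
  ring

theorem INTA_lag_le (u v : E3) : nq (crs u v) ≤ nq u * nq v := by
  rw [INTA_lag]
  have := Complex.normSq_nonneg (INTA_ip v u)
  linarith

theorem INTA_exp (u v : E3) (α β : ℂ) : nq (fun i => α * u i - β * v i) =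
    Complex.normSq α * nq u + Complex.normSq β * nq v -
      2 * ((starRingEnd ℂ) β * α * (starRingEnd ℂ) (INTA_ip v u)).re := by
  rw [INTA_nq, INTA_nq, INTA_nq]
  simp only [INTA_ip, Complex.normSq_apply,
    Complex.sub_re, Complex.sub_im, Complex.add_re, Complex.add_im, Complex.mul_re, Complex.mul_im, Complex.conj_re,
    Complex.conj_im]
  ring

theorem INTA_smul (c : ℂ) (v : E3) : nq (fun i => c * v i) = Complex.normSq c * nq v := by
  unfold nq
  rw [Finset.mul_sum]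
  exact Finset.sum_congr rfl fun i _ => Complex.normSq_mul _ _

theorem INTA_J1 (φ ψ χ : E3) : crs (crs φ ψ) (crs φ χ) = fun i => (crs φ ψ ⬝ᵥ χ) * φ i := by
  funext i
  fin_cases i <;>
    simp [crs, dotProduct, Fin.sum_univ_three] <;> ring

theorem INTA_J2 (φ ψ φ' ψ' : E3) : (fun i => (crs φ ψ' ⬝ᵥ φ') * crs φ ψ i - (crs φ ψ ⬝ᵥ φ') * crs φ ψ' i) =
    fun i => (-(crs φ ψ ⬝ᵥ ψ')) * crs φ φ' i := by
  funext i
  fin_cases i <;>
    simp [crs, dotProduct, Fin.sum_univ_three] <;> ring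

theorem INTA_id (φ ψ φ' ψ' : E3) (hφ : nq φ ≠ 0) (hn : nq (crs φ ψ) ≠ 0) :
    (nq (crs φ φ') / (2 * nq φ ^ 2)) / 2 * ((nq (crs φ ψ') * nq (crs φ ψ) -
        Complex.normSq (INTA_ip (crs φ ψ') (crs φ ψ))) / nq (crs φ ψ) ^ 2) +
      (-(1 / (4 * nq φ))) * ((Complex.normSq (crs φ ψ' ⬝ᵥ φ') * nq (crs φ ψ) ^ 2 -
        2 * ((starRingEnd ℂ) (crs φ ψ ⬝ᵥ φ') * (crs φ ψ' ⬝ᵥ φ') *
          (starRingEnd ℂ) (INTA_ip (crs φ ψ') (crs φ ψ))).re * nq (crs φ ψ) -
        Complex.normSq (crs φ ψ ⬝ᵥ φ') * nq (crs φ ψ') * nq (crs φ ψ) +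
        2 * Complex.normSq (crs φ ψ ⬝ᵥ φ') * Complex.normSq (INTA_ip (crs φ ψ') (crs φ ψ))) / nq (crs φ ψ) ^ 3) =
    Complex.normSq (crs φ ψ ⬝ᵥ φ') * Complex.normSq (crs φ ψ ⬝ᵥ ψ') / (2 * nq (crs φ ψ) ^ 3) := by
  have F1 := INTA_lag (crs φ ψ) (crs φ ψ')
  rw [INTA_J1, INTA_smul] at F1
  have F2 := INTA_exp (crs φ ψ) (crs φ ψ') (crs φ ψ' ⬝ᵥ φ') (crs φ ψ ⬝ᵥ φ')
  rw [INTA_J2, INTA_smul, Complex.normSq_neg] at F2
  generalize ((starRingEnd ℂ) (crs φ ψ ⬝ᵥ φ') * (crs φ ψ' ⬝ᵥ φ') *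
          (starRingEnd ℂ) (INTA_ip (crs φ ψ') (crs φ ψ))).re = R at *
  generalize Complex.normSq (INTA_ip (crs φ ψ') (crs φ ψ)) = Cc at *
  generalize Complex.normSq (crs φ ψ' ⬝ᵥ φ') = H at *
  generalize Complex.normSq (crs φ ψ ⬝ᵥ φ') = S at *
  generalize Complex.normSq (crs φ ψ ⬝ᵥ ψ') = X at *
  generalize nq (crs φ ψ') = P at *
  generalize nq (crs φ ψ) = N at *
  generalize nq (crs φ φ') = W at *
  generalize nq φ = A at *
  have e1 : P * N - Cc = X * A := by linarith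
  have e2 : H * N ^ 2 - 2 * R * N - S * P * N + 2 * S * Cc = N * (X * W) - 2 * S * (X * A) := by
    have : H * N - 2 * R + S * P = X * W := by linarith
    linear_combination N * this - 2 * S * e1
  rw [e1, e2]
  field_simp
  ring

/-- the Laplacian of a cut-off -/
theorem INTA_chi {χ : ℂ → ℝ} {Ω : Set ℂ} (hχ : ContDiff ℝ 2 χ) (hs : tsupport χ ⊆ Ω) (hc : HasCompactSupport χ) :
    Continuous (lap χ) ∧ tsupport (lap χ) ⊆ Ω ∧ HasCompactSupport (lap χ) := by
  have e : lap χ = fun z => (1 / 4) * (fderiv ℝ (fun w => fderiv ℝ χ w 1) z 1 +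
      fderiv ℝ (fun w => fderiv ℝ χ w Complex.I) z Complex.I) := by
    funext z
    exact MSS_lap hχ.contDiffAt
  have h2 : ∀ v : ℂ, ContDiff ℝ 1 (fun z => fderiv ℝ χ z v) := fun v =>
    (hχ.fderiv_right (by norm_num)).clm_apply contDiff_const
  have h3 : ∀ v : ℂ, Continuous (fun z => fderiv ℝ (fun w => fderiv ℝ χ w v) z v) := fun v =>
    ((h2 v).continuous_fderiv (by simp)).clm_apply continuous_const
  have h4 : ∀ v : ℂ, Function.support (fun z => fderiv ℝ (fun w => fderiv ℝ χ w v) z v) ⊆ tsupport χ := fun v =>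
    (subset_tsupport _).trans ((tsupport_fderiv_apply_subset ℝ v).trans (tsupport_fderiv_apply_subset ℝ v))
  have h5 : tsupport (lap χ) ⊆ tsupport χ := by
    refine closure_minimal ?_ (isClosed_tsupport χ)
    intro z hz
    by_contra hcon
    apply hz
    rw [e]
    have a1 : fderiv ℝ (fun w => fderiv ℝ χ w 1) z 1 = 0 := Function.notMem_support.1 (fun h => hcon (h4 1 h))
    have a2 : fderiv ℝ (fun w => fderiv ℝ χ w Complex.I) z Complex.I = 0 :=
      Function.notMem_support.1 (fun h => hcon (h4 Complex.I h))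
    simp only [a1, a2, add_zero, mul_zero]
  refine ⟨?_, h5.trans hs, ?_⟩
  · rw [e]
    exact continuous_const.mul ((h3 1).add (h3 Complex.I))
  · exact IsCompact.of_isClosed_subset hc (isClosed_tsupport _) h5

theorem INTA_lap_const (c : ℝ) (z : ℂ) : lap (fun _ => c) z = 0 := by
  rw [MSS_lap contDiffAt_const]
  simp

theorem INTA (hINTM : INTM_stmt) : INTA_stmt := by
  intro χ hχ hs
  have hc : HasCompactSupport χ := by
    refine IsCompact.of_isClosed_subset (isCompact_closedBall (0 : ℂ) 1) (isClosed_tsupport χ) ?_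
    exact hs.trans ball_subset_closedBall
  have hχ2 : ContDiff ℝ 2 χ := hχ.of_le ENat.LEInfty.out
  obtain ⟨l1, l2, l3⟩ := INTA_chi hχ2 hs hc
  have hball : IsOpen (ball (0 : ℂ) 1) := isOpen_ball
  have hint0 : 0 ≤ ∫ z, |lap χ z| := integral_nonneg fun z => abs_nonneg _
  refine ⟨1 + ∫ z, |lap χ z|, by linarith, ?_⟩
  intro Φ Ψ s hs0 hs1 hΦ hΨ hΦ0 hΨ0 hsep z hz
  -- notation
  set φ : E3 := Φ z with hφ
  set φ' : E3 := deriv Φ z with hφ'
  have hA : 0 < nq φ := INTA_nq_pos _ (hΦ0 z hz)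
  have hB : ∀ t ∈ ball (0 : ℂ) 1, 0 < nq (Ψ t) := fun t ht => INTA_nq_pos _ (hΨ0 t ht)
  have hNpos : ∀ t ∈ ball (0 : ℂ) 1, 0 < nq (crs φ (Ψ t)) := fun t ht => by
    have h1 := hsep z hz t ht
    have h2 := hB t ht
    have : 0 < s ^ 2 * (nq φ * nq (Ψ t)) := by positivity
    linarith
  have hcrs : ∀ t ∈ ball (0 : ℂ) 1, crs φ (Ψ t) ≠ 0 := fun t ht h => by
    have := hNpos t ht
    rw [h] at this
    simp [nq] at this
  have h00 : (0 : ℂ) ∈ ball (0 : ℂ) 1 := mem_ball_self one_pos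
  have hL := (hINTM Φ Ψ hΦ hΨ z hz 0 h00 (hcrs 0 h00)).2.1
  set lam : ℝ := lap (fun z => (1 / 2) * Real.log (nq (Φ z))) z with hlam
  have hlam' : lam = nq (crs φ φ') / (2 * nq φ ^ 2) := hL
  have hlam0 : 0 ≤ lam := by
    rw [hlam']
    exact div_nonneg (INTA_nq_nonneg _) (by positivity)
  have hMA : ∀ t ∈ ball (0 : ℂ) 1, MA (LL Φ Ψ) (LL Φ Ψ) (z, t) =
      Complex.normSq (crs φ (Ψ t) ⬝ᵥ φ') * Complex.normSq (crs φ (Ψ t) ⬝ᵥ deriv Ψ t) / (2 * nq (crs φ (Ψ t)) ^ 3) :=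
    fun t ht => (hINTM Φ Ψ hΦ hΨ z hz t ht (hcrs t ht)).1
  -- the potential
  have hΨi : ∀ i, DifferentiableOn ℂ (fun t => Ψ t i) (ball 0 1) := differentiableOn_pi.1 hΨ
  have hΨd : ∀ i, ∀ t ∈ ball (0 : ℂ) 1, HasDerivAt (fun t => Ψ t i) (deriv Ψ t i) t := by
    intro i t ht
    have h1 : HasDerivAt Ψ (deriv Ψ t) t := (hΨ.differentiableAt (hball.mem_nhds ht)).hasDerivAt
    exact (hasDerivAt_pi.1 h1) i
  let m : Fin 3 → ℂ → ℂ := fun i t => crs φ (Ψ t) i
  have hmd : ∀ i, ∀ t ∈ ball (0 : ℂ) 1, HasDerivAt (m i) (crs φ (deriv Ψ t) i) t := by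
    intro i t ht
    fin_cases i
    · exact ((hΨd 2 t ht).const_mul (φ 1)).sub ((hΨd 1 t ht).const_mul (φ 2))
    · exact ((hΨd 0 t ht).const_mul (φ 2)).sub ((hΨd 2 t ht).const_mul (φ 0))
    · exact ((hΨd 1 t ht).const_mul (φ 0)).sub ((hΨd 0 t ht).const_mul (φ 1))
  have hmdiff : ∀ i, DifferentiableOn ℂ (m i) (ball 0 1) := fun i t ht =>
    (hmd i t ht).differentiableAt.differentiableWithinAt
  let h : ℂ → ℂ := fun t => crs φ (Ψ t) ⬝ᵥ φ'
  have hhd : ∀ t ∈ ball (0 : ℂ) 1, HasDerivAt h (crs φ (deriv Ψ t) ⬝ᵥ φ') t := by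
    intro t ht
    have e1 : h = fun t => m 0 t * φ' 0 + m 1 t * φ' 1 + m 2 t * φ' 2 := by
      funext t
      change crs φ (Ψ t) ⬝ᵥ φ' = _
      rw [dotProduct, Fin.sum_univ_three]
    have e2 : crs φ (deriv Ψ t) ⬝ᵥ φ' = crs φ (deriv Ψ t) 0 * φ' 0 + crs φ (deriv Ψ t) 1 * φ' 1 +
        crs φ (deriv Ψ t) 2 * φ' 2 := by
      rw [dotProduct, Fin.sum_univ_three]
    rw [e1, e2]
    exact (((hmd 0 t ht).mul_const _).add ((hmd 1 t ht).mul_const _)).add ((hmd 2 t ht).mul_const _)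
  have hhdiff : DifferentiableOn ℂ h (ball 0 1) := fun t ht => (hhd t ht).differentiableAt.differentiableWithinAt
  let kap : ℂ → ℝ := fun t => (lam / 2) * Real.log (nq (crs φ (Ψ t))) +
    (-(1 / (4 * nq φ))) * (Complex.normSq (crs φ (Ψ t) ⬝ᵥ φ') / nq (crs φ (Ψ t)))
  have hkap : kap = fun t => (lam / 2) * Real.log (Complex.normSq (m 0 t) + Complex.normSq (m 1 t) + Complex.normSq (m 2 t)) +
      (-(1 / (4 * nq φ))) * (Complex.normSq (h t) / (Complex.normSq (m 0 t) + Complex.normSq (m 1 t) + Complex.normSq (m 2 t))) := by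
    funext t
    change (lam / 2) * Real.log (nq (crs φ (Ψ t))) +
      (-(1 / (4 * nq φ))) * (Complex.normSq (crs φ (Ψ t) ⬝ᵥ φ') / nq (crs φ (Ψ t))) = _
    rw [INTA_nq]
  have hk : ∀ t ∈ ball (0 : ℂ) 1, ContDiffAt ℝ 2 kap t ∧ lap kap t = MA (LL Φ Ψ) (LL Φ Ψ) (z, t) := by
    intro t ht
    have h1 := INTA_lap (m 0) (m 1) (m 2) h t (lam / 2) (-(1 / (4 * nq φ))) (ball 0 1) hball ht (hmdiff 0) (hmdiff 1)
      (hmdiff 2) hhdiff (by
        have := hNpos t ht
        rw [INTA_nq] at this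
        exact this.ne')
    rw [← hkap] at h1
    refine ⟨h1.1, h1.2.trans ?_⟩
    rw [(hmd 0 t ht).deriv, (hmd 1 t ht).deriv, (hmd 2 t ht).deriv, (hhd t ht).deriv, hMA t ht,
      ← INTA_id φ (Ψ t) φ' (deriv Ψ t) hA.ne' (hNpos t ht).ne', hlam', INTA_nq (crs φ (deriv Ψ t)), INTA_nq (crs φ (Ψ t))]
    rfl
  have hkC : ContDiffOn ℝ 2 kap (ball 0 1) := fun t ht => (hk t ht).1.contDiffWithinAt
  -- the integral of `MA`
  have hI1 : ∫ t, χ t * MA (LL Φ Ψ) (LL Φ Ψ) (z, t) = ∫ t, lap χ t * kap t := by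
    rw [← MSS_green hball hχ2 hs hc hkC]
    refine integral_congr_ae (Eventually.of_forall fun t => ?_)
    change χ t * MA (LL Φ Ψ) (LL Φ Ψ) (z, t) = χ t * lap kap t
    by_cases ht : t ∈ ball (0 : ℂ) 1
    · rw [(hk t ht).2]
    · rw [image_eq_zero_of_notMem_tsupport (fun h => ht (hs h)), zero_mul, zero_mul]
  have hI2 : ∫ t, lap χ t = 0 := by
    have h1 := MSS_green (h := fun _ => (1 : ℝ)) hball hχ2 hs hc contDiffOn_const
    simp only [INTA_lap_const, mul_zero, mul_one, integral_zero] at h1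
    exact h1.symm
  -- integrability
  have hlogc : ContinuousOn (fun t => (1 / 2) * Real.log (nq (Ψ t))) (ball 0 1) := by
    refine continuousOn_const.mul (ContinuousOn.log ?_ fun t ht => (hB t ht).ne')
    have e1 : (fun t => nq (Ψ t)) = fun t => Complex.normSq (Ψ t 0) + Complex.normSq (Ψ t 1) + Complex.normSq (Ψ t 2) := by
      funext t
      exact INTA_nq _
    rw [e1]
    exact ((Complex.continuous_normSq.comp_continuousOn (hΨi 0).continuousOn).add
      (Complex.continuous_normSq.comp_continuousOn (hΨi 1).continuousOn)).add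
      (Complex.continuous_normSq.comp_continuousOn (hΨi 2).continuousOn)
  have i1 : Integrable (fun t => lap χ t * kap t) := MSS_integrable hball l1 l2 l3 hkC.continuousOn
  have i2 : Integrable (fun t => lap χ t * ((1 / 2) * Real.log (nq (Ψ t)))) := MSS_integrable hball l1 l2 l3 hlogc
  have i3 : Integrable (fun t => lap χ t) := l1.integrable_of_hasCompactSupport l3
  have hI3 : (∫ t, χ t * MA (LL Φ Ψ) (LL Φ Ψ) (z, t)) - lam * ∫ t, lap χ t * ((1 / 2) * Real.log (nq (Ψ t))) =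
      ∫ t, lap χ t * (kap t - lam * ((1 / 2) * Real.log (nq (Ψ t))) - lam / 2 * Real.log (nq φ)) := by
    have e1 : (fun t => lap χ t * (kap t - lam * ((1 / 2) * Real.log (nq (Ψ t))) - lam / 2 * Real.log (nq φ))) =
        fun t => (lap χ t * kap t - lam * (lap χ t * ((1 / 2) * Real.log (nq (Ψ t))))) -
          (lam / 2 * Real.log (nq φ)) * lap χ t := by
      funext t
      ring
    have i12 : Integrable (fun t => lap χ t * kap t - lam * (lap χ t * ((1 / 2) * Real.log (nq (Ψ t))))) :=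
      i1.sub (i2.const_mul lam)
    rw [e1, integral_sub i12 (i3.const_mul _), integral_sub i1 (i2.const_mul lam),
      integral_const_mul, integral_const_mul, hI2, mul_zero, sub_zero, hI1]
  -- the bound
  have hbd : ∀ t ∈ ball (0 : ℂ) 1, |kap t - lam * ((1 / 2) * Real.log (nq (Ψ t))) - lam / 2 * Real.log (nq φ)| ≤
      lam * (1 + Real.log (1 / s)) := by
    intro t ht
    have hN := hNpos t ht
    have hb := hB t ht
    have h1 := hsep z hz t ht
    have h2 := INTA_lag_le φ (Ψ t)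
    have hlog1 : Real.log (nq (crs φ (Ψ t))) ≤ Real.log (nq φ) + Real.log (nq (Ψ t)) := by
      rw [← Real.log_mul hA.ne' hb.ne']
      exact Real.log_le_log hN h2
    have hlog2 : -(2 * Real.log (1 / s)) + (Real.log (nq φ) + Real.log (nq (Ψ t))) ≤ Real.log (nq (crs φ (Ψ t))) := by
      have h3 : Real.log (s ^ 2 * (nq φ * nq (Ψ t))) = -(2 * Real.log (1 / s)) + (Real.log (nq φ) + Real.log (nq (Ψ t))) := by
        rw [Real.log_mul (by positivity) (by positivity), Real.log_mul hA.ne' hb.ne', Real.log_pow, one_div, Real.log_inv]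
        push_cast
        ring
      rw [← h3]
      exact Real.log_le_log (by positivity) h1
    have hlogs : 0 ≤ Real.log (1 / s) := Real.log_nonneg (by rw [le_div_iff₀ hs0]; linarith)
    -- the second term
    have hq : 0 ≤ 1 / (4 * nq φ) * (Complex.normSq (crs φ (Ψ t) ⬝ᵥ φ') / nq (crs φ (Ψ t))) := by
      have := Complex.normSq_nonneg (crs φ (Ψ t) ⬝ᵥ φ')
      positivity
    have hq2 : 1 / (4 * nq φ) * (Complex.normSq (crs φ (Ψ t) ⬝ᵥ φ') / nq (crs φ (Ψ t))) ≤ lam / 2 := by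
      have h4 := INTA_lag_le (crs φ (Ψ t)) (crs φ φ')
      rw [INTA_J1, INTA_smul] at h4
      rw [hlam', div_mul_div_comm, one_mul, div_div, div_le_div_iff₀ (by positivity) (by positivity)]
      have hA2 : 0 ≤ 4 * nq φ := by positivity
      have := mul_le_mul_of_nonneg_left h4 hA2
      calc Complex.normSq (crs φ (Ψ t) ⬝ᵥ φ') * (2 * nq φ ^ 2 * 2)
          = 4 * nq φ * (Complex.normSq (crs φ (Ψ t) ⬝ᵥ φ') * nq φ) := by ring
        _ ≤ 4 * nq φ * (nq (crs φ (Ψ t)) * nq (crs φ φ')) := this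
        _ = _ := by ring
    have e2 : kap t - lam * ((1 / 2) * Real.log (nq (Ψ t))) - lam / 2 * Real.log (nq φ) =
        lam / 2 * (Real.log (nq (crs φ (Ψ t))) - (Real.log (nq φ) + Real.log (nq (Ψ t)))) -
          1 / (4 * nq φ) * (Complex.normSq (crs φ (Ψ t) ⬝ᵥ φ') / nq (crs φ (Ψ t))) := by
      change (lam / 2) * Real.log (nq (crs φ (Ψ t))) +
        (-(1 / (4 * nq φ))) * (Complex.normSq (crs φ (Ψ t) ⬝ᵥ φ') / nq (crs φ (Ψ t))) - _ - _ = _
      ring
    rw [e2, abs_le]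
    constructor
    · have := mul_le_mul_of_nonneg_left hlog2 (show (0 : ℝ) ≤ lam / 2 by linarith)
      nlinarith
    · have := mul_le_mul_of_nonneg_left hlog1 (show (0 : ℝ) ≤ lam / 2 by linarith)
      nlinarith
  rw [hI3]
  have hbd2 : ∀ t, ‖lap χ t * (kap t - lam * ((1 / 2) * Real.log (nq (Ψ t))) - lam / 2 * Real.log (nq φ))‖ ≤
      |lap χ t| * (lam * (1 + Real.log (1 / s))) := by
    intro t
    rw [norm_mul, Real.norm_eq_abs, Real.norm_eq_abs]
    by_cases ht : t ∈ ball (0 : ℂ) 1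
    · exact mul_le_mul_of_nonneg_left (hbd t ht) (abs_nonneg _)
    · rw [image_eq_zero_of_notMem_tsupport (fun h => ht (l2 h)), abs_zero, zero_mul, zero_mul]
  have h5 := norm_integral_le_of_norm_le (i3.abs.mul_const _) (Eventually.of_forall hbd2)
  rw [integral_mul_const, Real.norm_eq_abs] at h5
  refine h5.trans ?_
  have hlogs : 0 ≤ Real.log (1 / s) := Real.log_nonneg (by rw [le_div_iff₀ hs0]; linarith)
  have h6 : 0 ≤ lam * (1 + Real.log (1 / s)) := by positivity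
  calc (∫ t, |lap χ t|) * (lam * (1 + Real.log (1 / s))) ≤ (1 + ∫ t, |lap χ t|) * (lam * (1 + Real.log (1 / s))) := by
        apply mul_le_mul_of_nonneg_right _ h6
        linarith
    _ = _ := by ring

end Pool.Agent.P2
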