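import Pool.Agent.helper15.P2.SpecI

/-! Project P2 (MP_063734_an), row QOM: quantitative inverse function theorem. -/

set_option autoImplicit false

open scoped ContDiff Topology ComplexConjugate NNReal
open MeasureTheory Filter Set Metric

namespace Pool.Agent.P2I

open Pool.Agent.P2

/-- Cauchy estimate for the first derivative on an open disc -/
theorem QOM_cauchy (f : ℂ → ℂ) (z : ℂ) (R M : ℝ) (hR : 0 < R) (hf : DifferentiableOn ℂ f (ball z R))
    (hM : ∀ x ∈ ball z R, ‖f x - f z‖ ≤ M) : ‖deriv f z‖ * R ≤ M := by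
  by_contra hcon
  have hlt : M < ‖deriv f z‖ * R := not_le.1 hcon
  have hM0 : 0 ≤ M := (norm_nonneg _).trans (hM z (mem_ball_self hR))
  have hA : 0 < ‖deriv f z‖ := by
    by_contra h
    have h0 : ‖deriv f z‖ = 0 := le_antisymm (not_lt.1 h) (norm_nonneg _)
    rw [h0, zero_mul] at hlt
    linarith
  set r : ℝ := (M / ‖deriv f z‖ + R) / 2 with hr
  have h1 : M / ‖deriv f z‖ < R := by
    rw [div_lt_iff₀ hA, mul_comm]
    exact hlt
  have h1' : 0 ≤ M / ‖deriv f z‖ := by positivity
  have hr0 : 0 < r := by linarith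
  have hrR : r < R := by linarith
  have hd : DiffContOnCl ℂ (fun x => f x - f z) (ball z r) :=
    (hf.sub_const (f z)).diffContOnCl_ball (closedBall_subset_ball hrR)
  have h2 := Complex.norm_deriv_le_of_forall_mem_sphere_norm_le hr0 hd
    (fun x hx => hM x (closedBall_subset_ball hrR (sphere_subset_closedBall hx)))
  have h3 : deriv (fun x => f x - f z) z = deriv f z := deriv_sub_const (f z)
  rw [h3, le_div_iff₀ hr0] at h2
  have h4 : ‖deriv f z‖ * r = (M + ‖deriv f z‖ * R) / 2 := by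
    rw [hr]
    field_simp
  linarith

theorem QOM_second (f : ℂ → ℂ) (z : ℂ) (R M : ℝ) (hR : 0 < R) (hf : DifferentiableOn ℂ f (ball z R))
    (hM : ∀ x ∈ ball z R, ‖f x - f z‖ ≤ M) (x : ℂ) (hx : x ∈ ball z (R / 2)) :
    ‖deriv (deriv f) x‖ ≤ 8 * M / R ^ 2 := by
  have hsub : closedBall x (R / 2) ⊆ ball z R := by
    intro y hy
    rw [mem_closedBall] at hy
    rw [mem_ball] at hx ⊢
    have := dist_triangle y x z
    linarith
  have hd : DiffContOnCl ℂ (fun x => f x - f z) (ball x (R / 2)) :=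
    (hf.sub_const (f z)).diffContOnCl_ball hsub
  have h2 := Complex.norm_iteratedDeriv_le_of_forall_mem_sphere_norm_le 2 (half_pos hR) hd
    (fun y hy => hM y (hsub (sphere_subset_closedBall hy)))
  have h3 : iteratedDeriv 2 (fun x => f x - f z) x = deriv (deriv f) x := by
    rw [iteratedDeriv_succ, iteratedDeriv_one]
    have : deriv (fun x => f x - f z) = deriv f := by
      ext y
      exact deriv_sub_const (f z)
    rw [this]
  rw [h3] at h2
  refine h2.trans (le_of_eq ?_)
  simp only [Nat.factorial]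
  push_cast
  field_simp
  ring

theorem QOM : QOM_stmt := by
  intro f z R M hR hM0 hf hM hne
  set A : ℝ := ‖deriv f z‖ with hA
  have hA0 : 0 < A := norm_pos_iff.2 hne
  have hAR : A * R ≤ M := QOM_cauchy f z R M hR hf hM
  set s : ℝ := A * R ^ 2 / (16 * M) with hs
  have hs0 : 0 < s := by positivity
  have hsR : s ≤ R / 16 := by
    rw [hs, div_le_div_iff₀ (by positivity) (by norm_num)]
    nlinarith
  have hopen : IsOpen (ball z R) := isOpen_ball
  have hfd : ∀ x ∈ ball z R, HasDerivAt f (deriv f x) x := fun x hx =>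
    (hf.differentiableAt (hopen.mem_nhds hx)).hasDerivAt
  have hball : ∀ r ≤ R, ball z r ⊆ ball z R := fun r hr => ball_subset_ball hr
  -- the derivative is almost constant
  have hder : ∀ x ∈ ball z s, ‖deriv f x - deriv f z‖ ≤ A / 2 := by
    intro x hx
    have hconv : Convex ℝ (ball z s) := convex_ball z s
    have h1 : ∀ y ∈ ball z s, DifferentiableAt ℂ (deriv f) y := fun y hy =>
      ((hf.deriv hopen).differentiableAt (hopen.mem_nhds (hball s (by linarith) hy)))
    have h2 : ∀ y ∈ ball z s, ‖deriv (deriv f) y‖ ≤ 8 * M / R ^ 2 := fun y hy =>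
      QOM_second f z R M hR hf hM y (ball_subset_ball (by linarith) hy)
    have h3 := hconv.norm_image_sub_le_of_norm_deriv_le h1 h2 (mem_ball_self hs0) hx
    refine h3.trans ?_
    have h4 : ‖x - z‖ ≤ s := (mem_ball_iff_norm.1 hx).le
    calc 8 * M / R ^ 2 * ‖x - z‖ ≤ 8 * M / R ^ 2 * s := by gcongr
      _ = A / 2 := by
        rw [hs]
        field_simp
        norm_num
  have hder0 : ∀ x ∈ ball z s, deriv f x ≠ 0 := by
    intro x hx h0
    have h1 := hder x hx
    rw [h0, zero_sub, norm_neg, ← hA] at h1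
    linarith
  -- the linear approximation
  let e : ℂ ≃L[ℂ] ℂ := ContinuousLinearEquiv.unitsEquivAut ℂ (Units.mk0 (deriv f z) hne)
  have he : ∀ w, e w = w * deriv f z := fun w => rfl
  have hesymm : ‖((e.symm : ℂ →L[ℂ] ℂ))‖₊ = (‖deriv f z‖₊)⁻¹ := by
    have h1 : (e.symm : ℂ →L[ℂ] ℂ) = ContinuousLinearMap.toSpanSingleton ℂ (deriv f z)⁻¹ := by
      ext
      simp only [ContinuousLinearMap.toSpanSingleton_apply, one_smul]
      change e.symm 1 = _
      rw [ContinuousLinearEquiv.symm_apply_eq, he, inv_mul_cancel₀ hne]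
    rw [h1]
    apply NNReal.coe_injective
    rw [coe_nnnorm, ContinuousLinearMap.norm_toSpanSingleton, norm_inv]
    rfl
  have happ : ApproximatesLinearOn f (e : ℂ →L[ℂ] ℂ) (ball z s) (‖deriv f z‖₊ / 2) := by
    intro x hx y hy
    have hconv : Convex ℝ (ball z s) := convex_ball z s
    have h1 : ∀ w ∈ ball z s, HasDerivWithinAt (fun w => f w - w * deriv f z) (deriv f w - deriv f z) (ball z s) w := by
      intro w hw
      have h2 := (hfd w (hball s (by linarith) hw)).sub ((hasDerivAt_id w).mul_const (deriv f z))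
      rw [one_mul] at h2
      exact h2.hasDerivWithinAt
    have h3 := hconv.norm_image_sub_le_of_norm_hasDerivWithin_le h1 hder hy hx
    have h4 : f x - f y - e (x - y) = f x - x * deriv f z - (f y - y * deriv f z) := by
      rw [he]
      ring
    change ‖f x - f y - e (x - y)‖ ≤ _
    rw [h4]
    refine h3.trans (le_of_eq ?_)
    rw [NNReal.coe_div, coe_nnnorm]
    rfl
  have hlt : (‖deriv f z‖₊ / 2 : ℝ≥0) < (‖((e.symm : ℂ →L[ℂ] ℂ))‖₊)⁻¹ := by
    rw [hesymm, inv_inv]
    have h0 : 0 < ‖deriv f z‖₊ := by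
      rw [← NNReal.coe_pos, coe_nnnorm]
      exact hA0
    exact NNReal.half_lt_self h0.ne'
  let Φ : OpenPartialHomeomorph ℂ ℂ := happ.toOpenPartialHomeomorph f (ball z s) (Or.inr hlt) isOpen_ball
  have hΦ : ∀ x, Φ x = f x := fun x => rfl
  have hsource : Φ.source = ball z s := rfl
  have htarget : ∀ y ∈ ball (f z) (A ^ 2 * R ^ 2 / (32 * M)), y ∈ Φ.target := by
    intro y hy
    have hε0 : 0 ≤ 2 * ‖y - f z‖ / A := by positivity
    have h32 : A ^ 2 * R ^ 2 / (32 * M) = A * s / 2 := by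
      rw [hs]
      field_simp
      norm_num
    have hεs : 2 * ‖y - f z‖ / A < s := by
      rw [div_lt_iff₀ hA0]
      have h1 := mem_ball_iff_norm.1 hy
      rw [h32] at h1
      linarith
    have h2 := happ.surjOn_closedBall_of_nonlinearRightInverse e.toNonlinearRightInverse hε0
      (closedBall_subset_ball hεs)
    have h3 : ((e.toNonlinearRightInverse.nnnorm : ℝ)⁻¹ - ((‖deriv f z‖₊ / 2 : ℝ≥0) : ℝ)) * (2 * ‖y - f z‖ / A) = ‖y - f z‖ := by
      change ((‖((e.symm : ℂ →L[ℂ] ℂ))‖₊ : ℝ)⁻¹ - ((‖deriv f z‖₊ / 2 : ℝ≥0) : ℝ)) * (2 * ‖y - f z‖ / A) = ‖y - f z‖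
      rw [hesymm, NNReal.coe_inv, inv_inv, NNReal.coe_div, coe_nnnorm, ← hA]
      field_simp
      norm_num
    rw [h3] at h2
    obtain ⟨x, hx, hxy⟩ := h2 (mem_closedBall_iff_norm.2 le_rfl)
    have h4 : x ∈ Φ.source := closedBall_subset_ball hεs hx
    have h5 := Φ.map_source h4
    rw [hΦ, hxy] at h5
    exact h5
  refine ⟨Φ.symm, ?_, ?_, ?_⟩
  · intro y hy
    have h1 : Φ.symm y ∈ ball z s := Φ.map_target (htarget y hy)
    have h2 : HasDerivAt Φ (deriv f (Φ.symm y)) (Φ.symm y) := hfd _ (hball s (by linarith) h1)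
    exact (Φ.hasDerivAt_symm (htarget y hy) (hder0 _ h1) h2).differentiableAt.differentiableWithinAt
  · exact Φ.left_inv (show z ∈ Φ.source from mem_ball_self hs0)
  · intro y hy
    have h1 : Φ.symm y ∈ ball z s := Φ.map_target (htarget y hy)
    exact ⟨ball_subset_ball hsR h1, Φ.right_inv (htarget y hy)⟩

end Pool.Agent.P2I
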