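import Pool.Agent.helper37.P2.SpecB

/-! Project P2 (MP_063734_an), row RAD: matrices near the unit matrix. -/

set_option autoImplicit false

open scoped ContDiff Topology
open MeasureTheory Filter Set Metric Pool.Agent.helper37.QA

namespace Pool.Agent.P2

theorem RAD_one (Z : E3) : mv one3 Z = Z := by
  ext i
  unfold mv one3
  simp

theorem RAD_sub (A : M3) (Z : E3) (i : Fin 3) : mv A Z i - Z i = ∑ j, (A i j - one3 i j) * Z j := by
  have h : Z i = ∑ j, one3 i j * Z j := (congrFun (RAD_one Z) i).symm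
  conv_lhs => rw [h]
  unfold mv
  rw [← Finset.sum_sub_distrib]
  exact Finset.sum_congr rfl fun j _ => by ring

theorem RAD_norm {r : ℝ} (hr : 0 < r) {A : M3} (hA : Near r A) (Z : E3) : ‖mv A Z - Z‖ ≤ 3 * r * ‖Z‖ := by
  rw [pi_norm_le_iff_of_nonneg (by positivity)]
  intro i
  rw [Pi.sub_apply, RAD_sub]
  refine (norm_sum_le _ _).trans ?_
  have h : ∀ j ∈ Finset.univ, ‖(A i j - one3 i j) * Z j‖ ≤ r * ‖Z‖ := by
    intro j _
    rw [norm_mul]
    exact mul_le_mul (hA i j).le (norm_le_pi_norm Z j) (norm_nonneg _) hr.le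
  refine (Finset.sum_le_sum h).trans (le_of_eq ?_)
  rw [Finset.sum_const, Finset.card_univ, Fintype.card_fin]
  simp
  ring

theorem RAD_nq_nonneg {n : ℕ} (v : Fin n → ℂ) : 0 ≤ nq v := Finset.sum_nonneg fun _ _ => Complex.normSq_nonneg _

theorem RAD_nsq_add (x y : ℂ) : Complex.normSq (x + y) ≤ 2 * Complex.normSq x + 2 * Complex.normSq y := by
  rw [Complex.normSq_apply, Complex.normSq_apply, Complex.normSq_apply, Complex.add_re, Complex.add_im]
  nlinarith [sq_nonneg (x.re - y.re), sq_nonneg (x.im - y.im)]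

theorem RAD_nq_add (x y : E3) : nq (x + y) ≤ 2 * nq x + 2 * nq y := by
  unfold nq
  rw [Finset.mul_sum, Finset.mul_sum, ← Finset.sum_add_distrib]
  exact Finset.sum_le_sum fun i _ => RAD_nsq_add _ _

theorem RAD_nq_sub (A : M3) (hA : ∀ i j, ‖A i j - one3 i j‖ ≤ 3 / 100) (Z : E3) :
    nq (mv A Z - Z) ≤ (81 / 10000) * nq Z := by
  have h : ∀ i, Complex.normSq ((mv A Z - Z) i) ≤ (27 / 10000) * nq Z := by
    intro i
    rw [Pi.sub_apply, RAD_sub, Complex.normSq_eq_norm_sq]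
    have h1 : ‖∑ j, (A i j - one3 i j) * Z j‖ ≤ ∑ j, (3 / 100) * ‖Z j‖ := by
      refine (norm_sum_le _ _).trans (Finset.sum_le_sum fun j _ => ?_)
      rw [norm_mul]
      exact mul_le_mul_of_nonneg_right (hA i j) (norm_nonneg _)
    have h2 : ‖∑ j, (A i j - one3 i j) * Z j‖ ^ 2 ≤ (∑ j, (3 / 100) * ‖Z j‖) ^ 2 :=
      pow_le_pow_left₀ (norm_nonneg _) h1 2
    refine h2.trans ?_
    unfold nq
    simp only [Fin.sum_univ_three, Complex.normSq_eq_norm_sq]
    nlinarith [sq_nonneg (‖Z 0‖ - ‖Z 1‖), sq_nonneg (‖Z 1‖ - ‖Z 2‖), sq_nonneg (‖Z 0‖ - ‖Z 2‖)]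
  have h3 : nq (mv A Z - Z) ≤ ∑ _i : Fin 3, (27 / 10000) * nq Z := Finset.sum_le_sum fun i _ => h i
  refine h3.trans (le_of_eq ?_)
  rw [Finset.sum_const, Finset.card_univ, Fintype.card_fin]
  simp
  ring

theorem RAD_nq (A : M3) (hA : ∀ i j, ‖A i j - one3 i j‖ ≤ 3 / 100) (Z : E3) :
    (1 / 4) * nq Z ≤ nq (mv A Z) ∧ nq (mv A Z) ≤ 4 * nq Z := by
  have h1 := RAD_nq_sub A hA Z
  have h0 := RAD_nq_nonneg Z
  have h2 := RAD_nq_add (mv A Z - Z) Z
  rw [sub_add_cancel] at h2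
  have h3 := RAD_nq_add (mv A Z) (-(mv A Z - Z))
  rw [← sub_eq_add_neg, sub_sub_cancel] at h3
  have h4 : nq (-(mv A Z - Z)) = nq (mv A Z - Z) := by
    unfold nq
    exact Finset.sum_congr rfl fun i _ => by rw [Pi.neg_apply, Complex.normSq_neg]
  rw [h4] at h3
  constructor <;> linarith

/-- cofactor matrix -/
def RAD_cof (A : M3) : M3 := ![![A 1 1 * A 2 2 - A 1 2 * A 2 1, A 1 2 * A 2 0 - A 1 0 * A 2 2, A 1 0 * A 2 1 - A 1 1 * A 2 0],
  ![A 2 1 * A 0 2 - A 2 2 * A 0 1, A 2 2 * A 0 0 - A 2 0 * A 0 2, A 2 0 * A 0 1 - A 2 1 * A 0 0],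
  ![A 0 1 * A 1 2 - A 0 2 * A 1 1, A 0 2 * A 1 0 - A 0 0 * A 1 2, A 0 0 * A 1 1 - A 0 1 * A 1 0]]

theorem RAD_crs (A : M3) (Z X : E3) : crs (mv A Z) (mv A X) = mv (RAD_cof A) (crs Z X) := by
  ext i
  fin_cases i <;>
    simp [crs, mv, RAD_cof, Fin.sum_univ_three] <;> ring

theorem RAD_diag {a b c d : ℂ} (ha : ‖a - 1‖ < 1 / 100) (hb : ‖b - 1‖ < 1 / 100) (hc : ‖c‖ < 1 / 100) (hd : ‖d‖ < 1 / 100) :
    ‖a * b - c * d - 1‖ ≤ 3 / 100 := by
  have e : a * b - c * d - 1 = (a - 1) + (b - 1) + (a - 1) * (b - 1) - c * d := by ring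
  rw [e]
  have h1 : ‖(a - 1) * (b - 1)‖ ≤ 1 / 100 * (1 / 100) := by
    rw [norm_mul]
    exact mul_le_mul ha.le hb.le (norm_nonneg _) (by norm_num)
  have h2 : ‖c * d‖ ≤ 1 / 100 * (1 / 100) := by
    rw [norm_mul]
    exact mul_le_mul hc.le hd.le (norm_nonneg _) (by norm_num)
  have h3 := norm_sub_le ((a - 1) + (b - 1) + (a - 1) * (b - 1)) (c * d)
  have h4 := norm_add_le ((a - 1) + (b - 1)) ((a - 1) * (b - 1))
  have h5 := norm_add_le (a - 1) (b - 1)
  linarith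

theorem RAD_off {a b c d : ℂ} (ha : ‖a - 1‖ < 1 / 100) (hb : ‖b‖ < 1 / 100) (hc : ‖c‖ < 1 / 100) (hd : ‖d‖ < 1 / 100) :
    ‖a * b - c * d‖ ≤ 3 / 100 := by
  have e : a * b - c * d = b + (a - 1) * b - c * d := by ring
  rw [e]
  have h1 : ‖(a - 1) * b‖ ≤ 1 / 100 * (1 / 100) := by
    rw [norm_mul]
    exact mul_le_mul ha.le hb.le (norm_nonneg _) (by norm_num)
  have h2 : ‖c * d‖ ≤ 1 / 100 * (1 / 100) := by
    rw [norm_mul]
    exact mul_le_mul hc.le hd.le (norm_nonneg _) (by norm_num)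
  have h3 := norm_sub_le (b + (a - 1) * b) (c * d)
  have h4 := norm_add_le b ((a - 1) * b)
  linarith

theorem RAD_cof_near {A : M3} (hA : Near (1 / 100) A) (i j : Fin 3) : ‖RAD_cof A i j - one3 i j‖ ≤ 3 / 100 := by
  have d0 : ‖A 0 0 - 1‖ < 1 / 100 := by simpa [one3] using hA 0 0
  have d1 : ‖A 1 1 - 1‖ < 1 / 100 := by simpa [one3] using hA 1 1
  have d2 : ‖A 2 2 - 1‖ < 1 / 100 := by simpa [one3] using hA 2 2
  have o01 : ‖A 0 1‖ < 1 / 100 := by simpa [one3] using hA 0 1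
  have o02 : ‖A 0 2‖ < 1 / 100 := by simpa [one3] using hA 0 2
  have o10 : ‖A 1 0‖ < 1 / 100 := by simpa [one3] using hA 1 0
  have o12 : ‖A 1 2‖ < 1 / 100 := by simpa [one3] using hA 1 2
  have o20 : ‖A 2 0‖ < 1 / 100 := by simpa [one3] using hA 2 0
  have o21 : ‖A 2 1‖ < 1 / 100 := by simpa [one3] using hA 2 1
  fin_cases i <;> fin_cases j
  · have h : RAD_cof A 0 0 - one3 0 0 = A 1 1 * A 2 2 - A 1 2 * A 2 1 - 1 := by simp [RAD_cof, one3]
    change ‖RAD_cof A 0 0 - one3 0 0‖ ≤ _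
    rw [h]
    exact RAD_diag d1 d2 o12 o21
  · have h : RAD_cof A 0 1 - one3 0 1 = -(A 2 2 * A 1 0 - A 1 2 * A 2 0) := by
      simp [RAD_cof, one3]
      ring
    change ‖RAD_cof A 0 1 - one3 0 1‖ ≤ _
    rw [h, norm_neg]
    exact RAD_off d2 o10 o12 o20
  · have h : RAD_cof A 0 2 - one3 0 2 = -(A 1 1 * A 2 0 - A 1 0 * A 2 1) := by
      simp [RAD_cof, one3]
    change ‖RAD_cof A 0 2 - one3 0 2‖ ≤ _
    rw [h, norm_neg]
    exact RAD_off d1 o20 o10 o21
  · have h : RAD_cof A 1 0 - one3 1 0 = -(A 2 2 * A 0 1 - A 2 1 * A 0 2) := by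
      simp [RAD_cof, one3]
    change ‖RAD_cof A 1 0 - one3 1 0‖ ≤ _
    rw [h, norm_neg]
    exact RAD_off d2 o01 o21 o02
  · have h : RAD_cof A 1 1 - one3 1 1 = A 2 2 * A 0 0 - A 2 0 * A 0 2 - 1 := by simp [RAD_cof, one3]
    change ‖RAD_cof A 1 1 - one3 1 1‖ ≤ _
    rw [h]
    exact RAD_diag d2 d0 o20 o02
  · have h : RAD_cof A 1 2 - one3 1 2 = -(A 0 0 * A 2 1 - A 2 0 * A 0 1) := by
      simp [RAD_cof, one3]
      ring
    change ‖RAD_cof A 1 2 - one3 1 2‖ ≤ _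
    rw [h, norm_neg]
    exact RAD_off d0 o21 o20 o01
  · have h : RAD_cof A 2 0 - one3 2 0 = -(A 1 1 * A 0 2 - A 0 1 * A 1 2) := by
      simp [RAD_cof, one3]
      ring
    change ‖RAD_cof A 2 0 - one3 2 0‖ ≤ _
    rw [h, norm_neg]
    exact RAD_off d1 o02 o01 o12
  · have h : RAD_cof A 2 1 - one3 2 1 = -(A 0 0 * A 1 2 - A 0 2 * A 1 0) := by
      simp [RAD_cof, one3]
    change ‖RAD_cof A 2 1 - one3 2 1‖ ≤ _
    rw [h, norm_neg]
    exact RAD_off d0 o12 o02 o10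
  · have h : RAD_cof A 2 2 - one3 2 2 = A 0 0 * A 1 1 - A 0 1 * A 1 0 - 1 := by simp [RAD_cof, one3]
    change ‖RAD_cof A 2 2 - one3 2 2‖ ≤ _
    rw [h]
    exact RAD_diag d0 d1 o01 o10

theorem RAD_smul (A : M3) (c : ℂ) (Z : E3) : mv A (c • Z) = c • mv A Z := by
  ext i
  unfold mv
  rw [Pi.smul_apply, smul_eq_mul, Finset.mul_sum]
  exact Finset.sum_congr rfl fun j _ => by rw [Pi.smul_apply, smul_eq_mul]; ring

theorem RAD_part1 (d : ℕ) (f : Endo 2 d) (U : Set (PP 2)) (hU : IsTrapping f U) :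
    ∃ r : ℝ, 0 < r ∧ r ≤ 1 / 100 ∧ Rad r (f.map '' closure U) U := by
  obtain ⟨δ, hδ, hgap⟩ := gap hU
  refine ⟨min (1 / 100) (δ / 4), by positivity, min_le_left _ _, ?_⟩
  intro A hA Z hZ
  obtain ⟨hZ0, p, hp, hpe⟩ := hZ
  have hp' : toPP ⟨p.rep, p.rep_nonzero⟩ = p := p.mk_rep
  rw [← hp', map_toPP f p.rep_nonzero] at hpe
  obtain ⟨c, hc⟩ := (Projectivization.mk_eq_mk_iff' ℂ _ _ hZ0 (pmap_ne f.nondeg p.rep_nonzero)).1 hpe.symm
  have hc0 : c ≠ 0 := by
    rintro rfl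
    apply hZ0
    rw [← hc, zero_smul]
  have hr : (0 : ℝ) < min (1 / 100) (δ / 4) := by positivity
  have h1 := RAD_norm hr hA Z
  have hZn : 0 < ‖Z‖ := norm_pos_iff.2 hZ0
  have h2 : ‖mv A Z - Z‖ < δ * ‖Z‖ := by
    refine h1.trans_lt ?_
    have h3 : 3 * min (1 / 100) (δ / 4) < δ := by
      have := min_le_right (1 / 100) (δ / 4)
      linarith
    exact mul_lt_mul_of_pos_right h3 hZn
  have h4 : c⁻¹ • mv A Z ∈ cone U := by
    refine hgap p.rep p.rep_nonzero (by rw [hp']; exact hp) _ ?_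
    have e1 : pmap f.F p.rep = c⁻¹ • Z := by
      rw [← hc, smul_smul, inv_mul_cancel₀ hc0, one_smul]
    rw [e1, ← smul_sub, norm_smul, norm_smul, mul_left_comm]
    exact mul_lt_mul_of_pos_left h2 (norm_pos_iff.2 (inv_ne_zero hc0))
  have h5 := cone_smul h4 hc0
  rwa [smul_smul, mul_inv_cancel₀ hc0, one_smul] at h5

theorem RAD_part3 (r : ℝ) (hr : 0 < r) (S : Set (PP 2)) : IsOpen (Ar r S) ∧ S ⊆ Ar r S := by
  constructor
  · have hset : IsOpen {v : E3 | ∃ Z ∈ cone S, ∃ A : M3, Near r A ∧ v = mv A Z} := by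
      rw [isOpen_iff_mem_nhds]
      rintro v ⟨Z, hZ, A, hA, hv⟩
      obtain ⟨hZ0, hZS⟩ := hZ
      obtain ⟨j, hj⟩ : ∃ j, Z j ≠ 0 := Function.ne_iff.1 hZ0
      have hcont : Continuous (fun (v' : E3) (k l : Fin 3) => A k l + if l = j then (v' k - v k) / Z j else 0) := by
        refine continuous_pi fun k => continuous_pi fun l => ?_
        by_cases hl : l = j
        · simp only [hl, if_true]
          fun_prop
        · simp only [hl, if_false]
          fun_prop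
      have hopen : IsOpen {B : M3 | Near r B} := by
        have e : {B : M3 | Near r B} = ⋂ i, ⋂ j, {B : M3 | ‖B i j - one3 i j‖ < r} := by
          ext B
          simp [Near]
        rw [e]
        refine isOpen_iInter_of_finite fun i => isOpen_iInter_of_finite fun j => ?_
        exact isOpen_lt (by fun_prop) continuous_const
      have hv0 : (fun (k l : Fin 3) => A k l + if l = j then (v k - v k) / Z j else 0) = A := by
        ext k l
        simp
      have hmem : ∀ᶠ v' in 𝓝 v, Near r (fun (k l : Fin 3) => A k l + if l = j then (v' k - v k) / Z j else 0) := by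
        refine hcont.continuousAt.eventually (hopen.mem_nhds ?_)
        change Near r (fun (k l : Fin 3) => A k l + if l = j then (v k - v k) / Z j else 0)
        rw [hv0]
        exact hA
      filter_upwards [hmem] with v' hv'
      refine ⟨Z, ⟨hZ0, hZS⟩, _, hv', ?_⟩
      ext k
      have h1 : v k = ∑ l, A k l * Z l := congrFun hv k
      change v' k = ∑ l, (A k l + if l = j then (v' k - v k) / Z j else 0) * Z l
      simp only [add_mul, Finset.sum_add_distrib, ite_mul, zero_mul, Finset.sum_ite_eq', Finset.mem_univ, if_true]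
      rw [← h1, div_mul_cancel₀ _ hj]
      ring
    change IsOpen (toPP ⁻¹' Ar r S)
    have e : (toPP ⁻¹' Ar r S : Set {v : Fin (2 + 1) → ℂ // v ≠ 0}) =
        Subtype.val ⁻¹' {v : E3 | ∃ Z ∈ cone S, ∃ A : M3, Near r A ∧ v = mv A Z} := by
      ext ⟨v, hv⟩
      constructor
      · rintro ⟨Z, hZ, A, hA, h, he⟩
        obtain ⟨c, hc⟩ := (Projectivization.mk_eq_mk_iff' ℂ _ _ hv h).1 he
        have hc0 : c ≠ 0 := by
          rintro rfl
          apply hv
          rw [← hc, zero_smul]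
        refine ⟨c • Z, cone_smul hZ hc0, A, hA, ?_⟩
        rw [RAD_smul]
        exact hc.symm
      · rintro ⟨Z, hZ, A, hA, he⟩
        have he' : v = mv A Z := he
        subst he'
        exact ⟨Z, hZ, A, hA, hv, rfl⟩
    rw [e]
    exact hset.preimage continuous_subtype_val
  · intro p hp
    have hp' : toPP ⟨p.rep, p.rep_nonzero⟩ = p := p.mk_rep
    refine ⟨p.rep, ⟨p.rep_nonzero, by rw [hp']; exact hp⟩, one3, ?_, ?_⟩
    · intro i j
      rw [sub_self, norm_zero]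
      exact hr
    · have h : mv one3 p.rep ≠ 0 := by
        rw [RAD_one]
        exact p.rep_nonzero
      refine ⟨h, hp'.symm.trans ?_⟩
      exact toPP_eq p.rep_nonzero h 1 (by rw [RAD_one, one_smul])

theorem RAD : RAD_stmt := by
  refine ⟨RAD_part1, ?_, RAD_part3, ?_⟩
  · intro A hA Z X
    have h1 := RAD_norm (by norm_num) hA Z
    have h2 : ‖mv A Z‖ ≤ ‖mv A Z - Z‖ + ‖Z‖ := by
      have := norm_add_le (mv A Z - Z) Z
      rwa [sub_add_cancel] at this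
    have h3 : ‖Z‖ ≤ ‖mv A Z‖ + ‖mv A Z - Z‖ := by
      have := norm_sub_le (mv A Z) (mv A Z - Z)
      rwa [sub_sub_cancel] at this
    have h4 : 0 ≤ ‖Z‖ := norm_nonneg _
    have hA' : ∀ i j, ‖A i j - one3 i j‖ ≤ 3 / 100 := fun i j => (hA i j).le.trans (by norm_num)
    have h5 := RAD_nq A hA' Z
    have h6 := RAD_nq (RAD_cof A) (RAD_cof_near hA) (crs Z X)
    rw [← RAD_crs] at h6
    exact ⟨by linarith, by linarith, h5.1, h5.2, h6.1, h6.2⟩
  · intro U Z r U' A hR hA hZ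
    refine ⟨?_, fun z hz => hR A hA (Z z) (hZ.2 z hz)⟩
    rw [differentiableOn_pi]
    intro i
    have hZi : ∀ j, DifferentiableOn ℂ (fun z => Z z j) (ball 0 1) := differentiableOn_pi.1 hZ.1
    unfold mv
    exact DifferentiableOn.fun_sum fun j _ => (hZi j).const_mul (A i j)

end Pool.Agent.P2
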