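import Pool.Agent.helper56.P2.SpecW

set_option autoImplicit false

/-! p2, row WCV: covering of a disc with bounded overlap. -/

open scoped ContDiff Topology ComplexConjugate ENNReal
open MeasureTheory Filter Set Metric MvPolynomial Pool.Agent.helper37.QA

namespace Pool.Agent.P2W

open Pool.Agent.P2

theorem WCV_vol (s : Finset ℂ) (ξ : ℂ) (R r : ℝ) (hR : 0 ≤ R) (hr : 0 < r) (h1 : ∀ c ∈ s, ‖c - ξ‖ ≤ R)
    (h2 : ∀ c ∈ s, ∀ c' ∈ s, c ≠ c' → r ≤ ‖c - c'‖) : (s.card : ℝ) * (r / 2) ^ 2 ≤ (R + r / 2) ^ 2 := by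
  have hsub : (⋃ c ∈ s, ball c (r / 2)) ⊆ ball ξ (R + r / 2) := by
    intro x hx
    simp only [mem_iUnion] at hx
    obtain ⟨c, hc, hx⟩ := hx
    rw [mem_ball, dist_eq_norm] at hx ⊢
    calc ‖x - ξ‖ = ‖(x - c) + (c - ξ)‖ := by rw [sub_add_sub_cancel]
      _ ≤ ‖x - c‖ + ‖c - ξ‖ := norm_add_le _ _
      _ < R + r / 2 := by
          have := h1 c hc
          linarith
  have hdis : (s : Set ℂ).PairwiseDisjoint (fun c => ball c (r / 2)) := by
    intro c hc c' hc' hne
    refine ball_disjoint_ball ?_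
    rw [dist_eq_norm]
    have := h2 c hc c' hc' hne
    linarith
  have hv := measure_mono (μ := volume) hsub
  rw [measure_biUnion_finset hdis (fun _ _ => measurableSet_ball)] at hv
  simp only [Complex.volume_ball] at hv
  rw [Finset.sum_const, nsmul_eq_mul, ← mul_assoc] at hv
  have hpi : (NNReal.pi : ℝ≥0∞) ≠ 0 := by
    simp [NNReal.pi_pos.ne']
  have hpit : (NNReal.pi : ℝ≥0∞) ≠ ⊤ := ENNReal.coe_ne_top
  have hv2 : (s.card : ℝ≥0∞) * ENNReal.ofReal (r / 2) ^ 2 ≤ ENNReal.ofReal (R + r / 2) ^ 2 := by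
    exact (ENNReal.mul_le_mul_iff_left hpi hpit).mp hv
  rw [← ENNReal.ofReal_pow (by positivity), ← ENNReal.ofReal_pow (by positivity), ← ENNReal.ofReal_natCast,
    ← ENNReal.ofReal_mul (by positivity)] at hv2
  exact (ENNReal.ofReal_le_ofReal_iff (by positivity)).mp hv2

theorem WCV : WCV_stmt := by
  classical
  refine ⟨169, fun r hr => ?_⟩
  set P : Finset ℂ → Prop := fun s => (∀ c ∈ s, ‖c‖ ≤ 1 / 32) ∧ ∀ c ∈ s, ∀ c' ∈ s, c ≠ c' → r ≤ ‖c - c'‖ with hP
  set N : Set ℕ := {n | ∃ s, P s ∧ s.card = n} with hN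
  have hne : N.Nonempty := ⟨0, ∅, ⟨by simp, by simp⟩, rfl⟩
  have hbd : BddAbove N := by
    refine ⟨⌈(1 / 32 + r / 2) ^ 2 / (r / 2) ^ 2⌉₊, ?_⟩
    rintro n ⟨s, hs, rfl⟩
    have h := WCV_vol s 0 (1 / 32) r (by norm_num) hr (fun c hc => by rw [sub_zero]; exact hs.1 c hc) hs.2
    have h2 : (s.card : ℝ) ≤ (1 / 32 + r / 2) ^ 2 / (r / 2) ^ 2 := by
      rw [le_div_iff₀ (by positivity)]
      exact h
    exact_mod_cast h2.trans (Nat.le_ceil _)
  obtain ⟨s, hs, hcard⟩ := Nat.sSup_mem hne hbd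
  have hmax : ∀ t, P t → t.card ≤ s.card := fun t ht => by
    rw [hcard]
    exact le_csSup hbd ⟨t, ht, rfl⟩
  refine ⟨s.card, fun j => (s.equivFin.symm j : ℂ), fun j => hs.1 _ (s.equivFin.symm j).2, ?_, ?_⟩
  · intro ξ hξ
    by_contra hc
    push Not at hc
    have hfar : ∀ c ∈ s, r ≤ ‖ξ - c‖ := by
      intro c hcs
      have := hc (s.equivFin ⟨c, hcs⟩)
      rwa [Equiv.symm_apply_apply] at this
    have hni : ξ ∉ s := by
      intro h
      have := hfar ξ h
      rw [sub_self, norm_zero] at this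
      linarith
    have hPi : P (insert ξ s) := by
      refine ⟨?_, ?_⟩
      · intro c hcs
        rcases Finset.mem_insert.mp hcs with rfl | hcs
        · exact hξ
        · exact hs.1 c hcs
      · intro c hcs c' hcs' hne
        rcases Finset.mem_insert.mp hcs with h5 | h5
        · rcases Finset.mem_insert.mp hcs' with h6 | h6
          · exact absurd (h5.trans h6.symm) hne
          · rw [h5]
            exact hfar c' h6
        · rcases Finset.mem_insert.mp hcs' with h6 | h6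
          · rw [norm_sub_rev, h6]
            exact hfar c h5
          · exact hs.2 c h5 c' h6 hne
    have := hmax _ hPi
    rw [Finset.card_insert_of_notMem hni] at this
    omega
  · intro ξ
    set z : Fin s.card → ℂ := fun j => (s.equivFin.symm j : ℂ) with hz
    have hinj : Function.Injective z := fun i j hij => s.equivFin.symm.injective (Subtype.ext hij)
    set A := Finset.univ.filter (fun j => ‖ξ - z j‖ < 6 * r) with hA
    have h := WCV_vol (A.image z) ξ (6 * r) r (by positivity) hr ?_ ?_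
    · rw [Finset.card_image_of_injective _ hinj] at h
      have h3 : (A.card : ℝ) * (r / 2) ^ 2 ≤ 169 * (r / 2) ^ 2 := by
        refine h.trans (le_of_eq ?_)
        ring
      have h4 : (A.card : ℝ) ≤ 169 := le_of_mul_le_mul_right h3 (by positivity)
      exact_mod_cast h4
    · intro c hc
      obtain ⟨j, hj, rfl⟩ := Finset.mem_image.mp hc
      rw [hA, Finset.mem_filter] at hj
      rw [norm_sub_rev]
      exact hj.2.le
    · intro c hc c' hc' hne
      obtain ⟨j, hj, rfl⟩ := Finset.mem_image.mp hc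
      obtain ⟨j', hj', rfl⟩ := Finset.mem_image.mp hc'
      exact hs.2 _ (s.equivFin.symm j).2 _ (s.equivFin.symm j').2 hne

end Pool.Agent.P2W
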