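import Pool.Agent.helper15.P2.SpecC
import Pool.Agent.helper49.P2.OSG

/-! p2, row BCF: coefficients of affine bands. -/

set_option autoImplicit false

open scoped ContDiff Topology ComplexConjugate ENNReal
open MeasureTheory Filter Set Metric

namespace Pool.Agent.P2B

open Pool.Agent.P2 Pool.Agent.P2I

/-- the part of the bidisc where `w1` does not vanish -/
def BCF_U (P Q : ℂ × ℂ → ℂ) : Set (ℂ × ℂ) := {p | p ∈ BI ∧ w1 P Q p ≠ 0}

theorem BCF_openBI : IsOpen BI := isOpen_ball.prod isOpen_ball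

theorem BCF_w1 {P Q : ℂ × ℂ → ℂ} {E : ℝ} (h : ND P Q E) : DifferentiableOn ℂ (w1 P Q) BI := by
  unfold w1
  exact (h.dQ.mul (OSG_dir BCF_openBI h.dP (1, 0))).sub (h.dP.mul (OSG_dir BCF_openBI h.dQ (1, 0)))

theorem BCF_w2 {P Q : ℂ × ℂ → ℂ} {E : ℝ} (h : ND P Q E) : DifferentiableOn ℂ (w2 P Q) BI := by
  unfold w2
  exact (h.dQ.mul (OSG_dir BCF_openBI h.dP (0, 1))).sub (h.dP.mul (OSG_dir BCF_openBI h.dQ (0, 1)))

theorem BCF_openU {P Q : ℂ × ℂ → ℂ} {E : ℝ} (h : ND P Q E) : IsOpen (BCF_U P Q) := by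
  have h1 := (BCF_w1 h).continuousOn.isOpen_inter_preimage BCF_openBI (isOpen_compl_singleton (x := (0 : ℂ)))
  exact h1

theorem BCF_div {f g : ℂ × ℂ → ℂ} {S : Set (ℂ × ℂ)} (hf : DifferentiableOn ℂ f S) (hg : DifferentiableOn ℂ g S)
    (hne : ∀ p ∈ S, g p ≠ 0) : DifferentiableOn ℂ (fun p => f p / g p) S := by
  intro p hp
  have h1 := (hf p hp).fun_mul ((hg p hp).fun_inv (hne p hp))
  exact h1.congr (fun q _ => by rw [div_eq_mul_inv]) (by rw [div_eq_mul_inv])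

theorem BCF_D1 {P Q : ℂ × ℂ → ℂ} {E : ℝ} (h : ND P Q E) {g : ℂ × ℂ → ℂ} (hg : DifferentiableOn ℂ g (BCF_U P Q)) :
    DifferentiableOn ℂ (D1 P Q g) (BCF_U P Q) := by
  have hsub : BCF_U P Q ⊆ BI := fun p hp => hp.1
  have hne : ∀ p ∈ BCF_U P Q, w1 P Q p ≠ 0 := fun p hp => hp.2
  have hA : DifferentiableOn ℂ (fun p => Q p ^ 2 / w1 P Q p) (BCF_U P Q) :=
    BCF_div ((h.dQ.mono hsub).fun_pow 2) ((BCF_w1 h).mono hsub) hne
  unfold D1
  exact hA.mul (OSG_dir (BCF_openU h) hg (1, 0))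

theorem BCF_D2 {P Q : ℂ × ℂ → ℂ} {E : ℝ} (h : ND P Q E) {g : ℂ × ℂ → ℂ} (hg : DifferentiableOn ℂ g (BCF_U P Q)) :
    DifferentiableOn ℂ (D2 P Q g) (BCF_U P Q) := by
  have hsub : BCF_U P Q ⊆ BI := fun p hp => hp.1
  have hne : ∀ p ∈ BCF_U P Q, w1 P Q p ≠ 0 := fun p hp => hp.2
  have hA : DifferentiableOn ℂ (fun p => w2 P Q p / w1 P Q p) (BCF_U P Q) :=
    BCF_div ((BCF_w2 h).mono hsub) ((BCF_w1 h).mono hsub) hne
  unfold D2
  exact (OSG_dir (BCF_openU h) hg (0, 1)).sub (hA.mul (OSG_dir (BCF_openU h) hg (1, 0)))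

theorem BCF_I2 {P Q : ℂ × ℂ → ℂ} {E : ℝ} (h : ND P Q E) (j : ℕ) :
    DifferentiableOn ℂ ((D2 P Q)^[j] Prod.fst) (BCF_U P Q) := by
  induction j with
  | zero => exact differentiable_fst.differentiableOn
  | succ j ih =>
    rw [Function.iterate_succ_apply']
    exact BCF_D2 h ih

theorem BCF_I1 {P Q : ℂ × ℂ → ℂ} {E : ℝ} (h : ND P Q E) (i j : ℕ) :
    DifferentiableOn ℂ ((D1 P Q)^[i] ((D2 P Q)^[j] Prod.fst)) (BCF_U P Q) := by
  induction i with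
  | zero => exact BCF_I2 h j
  | succ i ih =>
    rw [Function.iterate_succ_apply']
    exact BCF_D1 h ih

theorem BCF_cauchy {f : ℂ → ℂ} {R C : ℝ} (hR : 0 < R) (hf : DifferentiableOn ℂ f (ball 0 R))
    (hC : ∀ z ∈ ball (0 : ℂ) R, ‖f z‖ ≤ C) (n : ℕ) : ‖iteratedDeriv n f 0‖ ≤ (n.factorial : ℝ) * C * R⁻¹ ^ n := by
  have h1 : ∀ ρ : ℝ, 0 < ρ → ρ < R → ‖iteratedDeriv n f 0‖ * ρ ^ n ≤ (n.factorial : ℝ) * C := by
    intro ρ h0 h1
    have hd : DiffContOnCl ℂ f (ball 0 ρ) := by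
      apply DifferentiableOn.diffContOnCl
      rw [closure_ball (0 : ℂ) h0.ne']
      exact hf.mono (closedBall_subset_ball h1)
    have h2 := Complex.norm_iteratedDeriv_le_of_forall_mem_sphere_norm_le (c := (0 : ℂ)) n h0 hd (C := C)
      (fun z hz => hC z (closedBall_subset_ball h1 (sphere_subset_closedBall hz)))
    rwa [le_div_iff₀ (pow_pos h0 n)] at h2
  have h2 : Tendsto (fun ρ : ℝ => ‖iteratedDeriv n f 0‖ * ρ ^ n) (𝓝[<] R) (𝓝 (‖iteratedDeriv n f 0‖ * R ^ n)) := by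
    have : Continuous (fun ρ : ℝ => ‖iteratedDeriv n f 0‖ * ρ ^ n) := by fun_prop
    exact this.continuousAt.tendsto.mono_left nhdsWithin_le_nhds
  have h3 : ‖iteratedDeriv n f 0‖ * R ^ n ≤ (n.factorial : ℝ) * C := by
    refine le_of_tendsto h2 ?_
    filter_upwards [Ioo_mem_nhdsLT hR] with ρ hρ
    exact h1 ρ hρ.1 hρ.2
  rw [inv_pow, ← div_eq_mul_inv, le_div_iff₀ (pow_pos hR n)]
  exact h3

section band

variable {P Q : ℂ × ℂ → ℂ} {E : ℝ} (h : ND P Q E) {x0 : ℂ} {κ r : ℝ} {Y : ℂ × ℂ → ℂ} (hr1 : r ≤ 1)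
  (hY : AB P Q (ball 0 1) κ r x0 Y)

include h hr1 hY

theorem BCF_G {p : ℂ × ℂ} (hp : p ∈ ball (0 : ℂ) κ ×ˢ ball (0 : ℂ) r) : (Y p, p.2) ∈ BI ∧ Q (Y p, p.2) ≠ 0 := by
  obtain ⟨z, v⟩ := p
  obtain ⟨hz, hv⟩ := hp
  obtain ⟨h1, h2⟩ := hY.2.2 z hz v hv
  have hm : (Y (z, v), v) ∈ BI := ⟨h1, ball_subset_ball hr1 hv⟩
  refine ⟨hm, ?_⟩
  intro hq
  have hq' : Q (Y (z, v), v) = 0 := hq
  rw [hq', mul_zero] at h2
  rcases h.ne _ hm with h3 | h3
  · exact h3 h2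
  · exact h3 hq'

theorem BCF_der {p : ℂ × ℂ} (hp : p ∈ ball (0 : ℂ) κ ×ˢ ball (0 : ℂ) r) :
    w1 P Q (Y p, p.2) * fderiv ℂ Y p (1, 0) = Q (Y p, p.2) ^ 2 ∧
    w1 P Q (Y p, p.2) * fderiv ℂ Y p (0, 1) + w2 P Q (Y p, p.2) = 0 := by
  have hopen : IsOpen (ball (0 : ℂ) κ ×ˢ ball (0 : ℂ) r) := isOpen_ball.prod isOpen_ball
  obtain ⟨hm, hq⟩ := BCF_G h hr1 hY hp
  have hYd : HasFDerivAt Y (fderiv ℂ Y p) p := (hY.1.differentiableAt (hopen.mem_nhds hp)).hasFDerivAt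
  have hPd : HasFDerivAt P (fderiv ℂ P (Y p, p.2)) (Y p, p.2) := (h.dP.differentiableAt (BCF_openBI.mem_nhds hm)).hasFDerivAt
  have hQd : HasFDerivAt Q (fderiv ℂ Q (Y p, p.2)) (Y p, p.2) := (h.dQ.differentiableAt (BCF_openBI.mem_nhds hm)).hasFDerivAt
  have hG : HasFDerivAt (fun p : ℂ × ℂ => (Y p, p.2)) ((fderiv ℂ Y p).prod (ContinuousLinearMap.snd ℂ ℂ ℂ)) p :=
    hYd.prodMk hasFDerivAt_snd
  have hPG := hPd.comp p hG
  have hQG := hQd.comp p hG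
  set c : ℂ := P (x0, 0) / Q (x0, 0) with hc
  have hlin : HasFDerivAt (fun p : ℂ × ℂ => c + p.1) (ContinuousLinearMap.fst ℂ ℂ ℂ) p := by
    exact hasFDerivAt_fst.const_add c
  have hR := hlin.mul hQG
  have hev : (P ∘ fun p : ℂ × ℂ => (Y p, p.2)) =ᶠ[𝓝 p] fun p : ℂ × ℂ => (c + p.1) * (Q ∘ fun p : ℂ × ℂ => (Y p, p.2)) p := by
    filter_upwards [hopen.mem_nhds hp] with p' hp'
    obtain ⟨z, v⟩ := p'
    exact (hY.2.2 z hp'.1 v hp'.2).2
  have hE := hPG.unique (hR.congr_of_eventuallyEq hev)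
  have hval : P (Y p, p.2) = (c + p.1) * Q (Y p, p.2) := hev.self_of_nhds
  have hs : ∀ (L : ℂ × ℂ →L[ℂ] ℂ) (a b : ℂ), L (a, b) = a * L (1, 0) + b * L (0, 1) := by
    intro L a b
    have : ((a, b) : ℂ × ℂ) = a • (1, 0) + b • (0, 1) := by
      ext <;> simp
    rw [this, map_add, map_smul, map_smul, smul_eq_mul, smul_eq_mul]
  constructor
  · have e := congrArg (fun L : ℂ × ℂ →L[ℂ] ℂ => L (1, 0)) hE
    simp only [ContinuousLinearMap.comp_apply, ContinuousLinearMap.prod_apply, ContinuousLinearMap.coe_snd',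
      _root_.add_apply, _root_.smul_apply, ContinuousLinearMap.coe_fst', smul_eq_mul,
      Function.comp_apply] at e
    rw [hs (fderiv ℂ P (Y p, p.2)) _ 0, hs (fderiv ℂ Q (Y p, p.2)) _ 0] at e
    unfold w1
    rw [hval]
    linear_combination Q (Y p, p.2) * e
  · have e := congrArg (fun L : ℂ × ℂ →L[ℂ] ℂ => L (0, 1)) hE
    simp only [ContinuousLinearMap.comp_apply, ContinuousLinearMap.prod_apply, ContinuousLinearMap.coe_snd',
      _root_.add_apply, _root_.smul_apply, ContinuousLinearMap.coe_fst', smul_eq_mul,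
      Function.comp_apply] at e
    rw [hs (fderiv ℂ P (Y p, p.2)) _ 1, hs (fderiv ℂ Q (Y p, p.2)) _ 1] at e
    unfold w1 w2
    rw [hval]
    linear_combination Q (Y p, p.2) * e

theorem BCF_GU {p : ℂ × ℂ} (hp : p ∈ ball (0 : ℂ) κ ×ˢ ball (0 : ℂ) r) : (Y p, p.2) ∈ BCF_U P Q := by
  obtain ⟨hm, hq⟩ := BCF_G h hr1 hY hp
  refine ⟨hm, ?_⟩
  intro hw
  have := (BCF_der h hr1 hY hp).1
  have hw' : w1 P Q (Y p, p.2) = 0 := hw
  rw [hw', zero_mul] at this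
  exact hq (pow_eq_zero_iff (two_ne_zero)|>.mp this.symm)

theorem BCF_dz {g : ℂ × ℂ → ℂ} (hg : DifferentiableOn ℂ g (BCF_U P Q)) {z v : ℂ} (hz : z ∈ ball (0 : ℂ) κ)
    (hv : v ∈ ball (0 : ℂ) r) : HasDerivAt (fun z => g (Y (z, v), v)) (D1 P Q g (Y (z, v), v)) z := by
  have hopen : IsOpen (ball (0 : ℂ) κ ×ˢ ball (0 : ℂ) r) := isOpen_ball.prod isOpen_ball
  have hp : (z, v) ∈ ball (0 : ℂ) κ ×ˢ ball (0 : ℂ) r := ⟨hz, hv⟩
  have hu := BCF_GU h hr1 hY hp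
  have hYd : HasFDerivAt Y (fderiv ℂ Y (z, v)) (z, v) := (hY.1.differentiableAt (hopen.mem_nhds hp)).hasFDerivAt
  have hgd : HasFDerivAt g (fderiv ℂ g (Y (z, v), v)) (Y (z, v), v) := (hg.differentiableAt ((BCF_openU h).mem_nhds hu)).hasFDerivAt
  have hl : HasDerivAt (fun z : ℂ => ((z, v) : ℂ × ℂ)) (1, 0) z := (hasDerivAt_id z).prodMk (hasDerivAt_const z v)
  have h1 : HasDerivAt (fun z => Y (z, v)) (fderiv ℂ Y (z, v) (1, 0)) z := hYd.comp_hasDerivAt z hl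
  have h2 : HasDerivAt (fun z => (Y (z, v), v)) (fderiv ℂ Y (z, v) (1, 0), 0) z := h1.prodMk (hasDerivAt_const z v)
  have h3 := hgd.comp_hasDerivAt z h2
  have e : fderiv ℂ g (Y (z, v), v) (fderiv ℂ Y (z, v) (1, 0), 0) = D1 P Q g (Y (z, v), v) := by
    have h4 := (BCF_der h hr1 hY hp).1
    have h5 : w1 P Q (Y (z, v), v) ≠ 0 := hu.2
    have : ((fderiv ℂ Y (z, v) (1, 0), 0) : ℂ × ℂ) = (fderiv ℂ Y (z, v) (1, 0)) • (1, 0) := by
      ext <;> simp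
    rw [this, map_smul, smul_eq_mul]
    unfold D1
    have h6 : fderiv ℂ Y (z, v) (1, 0) = Q (Y (z, v), v) ^ 2 / w1 P Q (Y (z, v), v) := by
      rw [eq_div_iff h5, mul_comm]
      exact h4
    rw [h6]
  rw [← e]
  exact h3

theorem BCF_dv {g : ℂ × ℂ → ℂ} (hg : DifferentiableOn ℂ g (BCF_U P Q)) {z v : ℂ} (hz : z ∈ ball (0 : ℂ) κ)
    (hv : v ∈ ball (0 : ℂ) r) : HasDerivAt (fun v => g (Y (z, v), v)) (D2 P Q g (Y (z, v), v)) v := by
  have hopen : IsOpen (ball (0 : ℂ) κ ×ˢ ball (0 : ℂ) r) := isOpen_ball.prod isOpen_ball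
  have hp : (z, v) ∈ ball (0 : ℂ) κ ×ˢ ball (0 : ℂ) r := ⟨hz, hv⟩
  have hu := BCF_GU h hr1 hY hp
  have hYd : HasFDerivAt Y (fderiv ℂ Y (z, v)) (z, v) := (hY.1.differentiableAt (hopen.mem_nhds hp)).hasFDerivAt
  have hgd : HasFDerivAt g (fderiv ℂ g (Y (z, v), v)) (Y (z, v), v) := (hg.differentiableAt ((BCF_openU h).mem_nhds hu)).hasFDerivAt
  have hl : HasDerivAt (fun v : ℂ => ((z, v) : ℂ × ℂ)) (0, 1) v := (hasDerivAt_const v z).prodMk (hasDerivAt_id v)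
  have h1 : HasDerivAt (fun v => Y (z, v)) (fderiv ℂ Y (z, v) (0, 1)) v := hYd.comp_hasDerivAt v hl
  have h2 : HasDerivAt (fun v => (Y (z, v), v)) (fderiv ℂ Y (z, v) (0, 1), 1) v := h1.prodMk (hasDerivAt_id v)
  have h3 := HasFDerivAt.comp_hasDerivAt (f := fun v => (Y (z, v), v)) v hgd h2
  have e : fderiv ℂ g (Y (z, v), v) (fderiv ℂ Y (z, v) (0, 1), 1) = D2 P Q g (Y (z, v), v) := by
    have h4 := (BCF_der h hr1 hY hp).2
    have h5 : w1 P Q (Y (z, v), v) ≠ 0 := hu.2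
    have : ((fderiv ℂ Y (z, v) (0, 1), 1) : ℂ × ℂ) = (fderiv ℂ Y (z, v) (0, 1)) • (1, 0) + (0, 1) := by
      ext <;> simp
    rw [this, map_add, map_smul, smul_eq_mul]
    unfold D2
    have h6 : fderiv ℂ Y (z, v) (0, 1) = - (w2 P Q (Y (z, v), v) / w1 P Q (Y (z, v), v)) := by
      rw [eq_neg_iff_add_eq_zero]
      field_simp
      linear_combination h4
    rw [h6]
    ring
  rw [← e]
  exact h3

theorem BCF_itv (j : ℕ) {z : ℂ} (hz : z ∈ ball (0 : ℂ) κ) : ∀ v ∈ ball (0 : ℂ) r,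
    iteratedDeriv j (fun v => Y (z, v)) v = ((D2 P Q)^[j] Prod.fst) (Y (z, v), v) := by
  induction j with
  | zero =>
    intro v _
    rw [iteratedDeriv_zero]
    rfl
  | succ j ih =>
    intro v hv
    rw [iteratedDeriv_succ, Function.iterate_succ_apply']
    have hev : iteratedDeriv j (fun v => Y (z, v)) =ᶠ[𝓝 v] fun v => ((D2 P Q)^[j] Prod.fst) (Y (z, v), v) := by
      filter_upwards [isOpen_ball.mem_nhds hv] with v' hv'
      exact ih v' hv'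
    rw [hev.deriv_eq]
    exact (BCF_dv h hr1 hY (BCF_I2 h j) hz hv).deriv

theorem BCF_itz (hr : 0 < r) (i j : ℕ) : ∀ z ∈ ball (0 : ℂ) κ,
    iteratedDeriv i (fun z => iteratedDeriv j (fun v => Y (z, v)) 0) z = ((D1 P Q)^[i] ((D2 P Q)^[j] Prod.fst)) (Y (z, 0), 0) := by
  have h0 : (0 : ℂ) ∈ ball (0 : ℂ) r := mem_ball_self hr
  induction i with
  | zero =>
    intro z hz
    rw [iteratedDeriv_zero]
    exact BCF_itv h hr1 hY j hz 0 h0
  | succ i ih =>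
    intro z hz
    rw [iteratedDeriv_succ, Function.iterate_succ_apply']
    have hev : iteratedDeriv i (fun z => iteratedDeriv j (fun v => Y (z, v)) 0) =ᶠ[𝓝 z]
        fun z => ((D1 P Q)^[i] ((D2 P Q)^[j] Prod.fst)) (Y (z, 0), 0) := by
      filter_upwards [isOpen_ball.mem_nhds hz] with z' hz'
      exact ih z' hz'
    rw [hev.deriv_eq]
    exact (BCF_dz h hr1 hY (BCF_I1 h i j) hz h0).deriv

end band

theorem BCF (hBSL : BSL_stmt) : BCF_stmt := by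
  intro P Q E h
  constructor
  · intro i j
    have h0 : (0 : ℂ) ∈ ball (0 : ℂ) 1 := mem_ball_self one_pos
    have hw := (hBSL P Q E h 0 h0).2.2.1
    have hmap : MapsTo (fun x : ℂ => ((x, 0) : ℂ × ℂ)) {x : ℂ | x ∈ ball (0 : ℂ) 1 ∧ Wr (sl P 0) (sl Q 0) x ≠ 0} (BCF_U P Q) := by
      intro x hx
      refine ⟨⟨hx.1, h0⟩, ?_⟩
      show w1 P Q (x, 0) ≠ 0
      rw [(hw x hx.1).1]
      exact hx.2
    have hd : DifferentiableOn ℂ (fun x : ℂ => ((x, 0) : ℂ × ℂ)) {x : ℂ | x ∈ ball (0 : ℂ) 1 ∧ Wr (sl P 0) (sl Q 0) x ≠ 0} := by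
      fun_prop
    have hc := (BCF_I1 h i j).comp hd hmap
    exact hc.div_const _
  · intro x0 hx0 hQ0 κ r Y hκ hr hr1 hY
    have h0 : (0 : ℂ) ∈ ball (0 : ℂ) 1 := mem_ball_self one_pos
    have hz0 : (0 : ℂ) ∈ ball (0 : ℂ) κ := mem_ball_self hκ
    have hv0 : (0 : ℂ) ∈ ball (0 : ℂ) r := mem_ball_self hr
    have hw := (hBSL P Q E h 0 h0).2.2.1
    have hY0 : Y (0, 0) = x0 := hY.2.1
    have hiter : ∀ i j : ℕ, iteratedDeriv i (fun z => iteratedDeriv j (fun v => Y (z, v)) 0) 0 =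
        (i.factorial : ℂ) * (j.factorial : ℂ) * cf P Q i j x0 := by
      intro i j
      rw [BCF_itz h hr1 hY hr i j 0 hz0, hY0]
      unfold cf
      have hi : (i.factorial : ℂ) ≠ 0 := Nat.cast_ne_zero.mpr (Nat.factorial_ne_zero i)
      have hj : (j.factorial : ℂ) ≠ 0 := Nat.cast_ne_zero.mpr (Nat.factorial_ne_zero j)
      field_simp
    refine ⟨?_, ?_, hiter⟩
    · rw [← (hw x0 hx0).1]
      have := (BCF_GU h hr1 hY (p := (0, 0)) ⟨hz0, hv0⟩).2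
      have h2 : w1 P Q (Y (0, 0), 0) ≠ 0 := this
      rwa [hY0] at h2
    · intro i j
      have hb1 : ∀ z ∈ ball (0 : ℂ) κ, ‖iteratedDeriv j (fun v => Y (z, v)) 0‖ ≤ (j.factorial : ℝ) * r⁻¹ ^ j := by
        intro z hz
        have hd : DifferentiableOn ℂ (fun v => Y (z, v)) (ball 0 r) := by
          refine hY.1.comp (s := ball 0 r) (f := fun v : ℂ => ((z, v) : ℂ × ℂ)) ?_ ?_
          · fun_prop
          · intro v hv
            exact ⟨hz, hv⟩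
        have := BCF_cauchy hr hd (C := 1) (fun v hv => by
          have := (hY.2.2 z hz v hv).1
          rw [mem_ball_zero_iff] at this
          exact this.le) j
        rwa [mul_one] at this
      have hd2 : DifferentiableOn ℂ (fun z => iteratedDeriv j (fun v => Y (z, v)) 0) (ball 0 κ) := by
        intro z hz
        have hev : (fun z => iteratedDeriv j (fun v => Y (z, v)) 0) =ᶠ[𝓝 z]
            fun z => ((D2 P Q)^[j] Prod.fst) (Y (z, 0), 0) := by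
          filter_upwards [isOpen_ball.mem_nhds hz] with z' hz'
          exact BCF_itv h hr1 hY j hz' 0 hv0
        exact ((BCF_dz h hr1 hY (BCF_I2 h j) hz hv0).differentiableAt.congr_of_eventuallyEq hev).differentiableWithinAt
      have h3 := BCF_cauchy hκ hd2 hb1 i
      rw [hiter i j, norm_mul, norm_mul, Complex.norm_natCast, Complex.norm_natCast] at h3
      have hi : (0 : ℝ) < (i.factorial : ℝ) := Nat.cast_pos.mpr (Nat.factorial_pos i)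
      have hj : (0 : ℝ) < (j.factorial : ℝ) := Nat.cast_pos.mpr (Nat.factorial_pos j)
      have h4 : (i.factorial : ℝ) * (j.factorial : ℝ) * ‖cf P Q i j x0‖ ≤
          (i.factorial : ℝ) * (j.factorial : ℝ) * (κ⁻¹ ^ i * r⁻¹ ^ j) := by
        refine h3.trans (le_of_eq ?_)
        ring
      exact le_of_mul_le_mul_left h4 (by positivity)

end Pool.Agent.P2B
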