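import Pool.Agent.helper56.P2.SpecU

/-! MP_063734_an, row p2:ULEV: the Levi form of a logarithm. -/

set_option autoImplicit false

namespace Pool.Agent.P2U

open MeasureTheory Set Filter Topology Metric Complex
open scoped ENNReal ContDiff

theorem ULEV_hline {W : Type} [NormedAddCommGroup W] [NormedSpace ℝ W] (p v : W) (s : ℝ) :
    HasDerivAt (fun s : ℝ => p + s • v) v s := by
  have h := ((hasDerivAt_id s).smul_const v).const_add p
  simpa using h

theorem ULEV_line {W : Type} [NormedAddCommGroup W] [NormedSpace ℝ W] (g : W → ℝ) (p v : W)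
    (hg : ContDiffAt ℝ 2 g p) :
    deriv (deriv (fun s : ℝ => g (p + s • v))) 0 = fderiv ℝ (fderiv ℝ g) p v v := by
  have h1 : ∀ᶠ q in 𝓝 p, DifferentiableAt ℝ g q := by
    filter_upwards [hg.eventually (by simp)] with q hq
    exact hq.differentiableAt (by simp)
  have h2 : DifferentiableAt ℝ (fderiv ℝ g) p :=
    (hg.fderiv_right (m := 1) (by norm_num)).differentiableAt (by simp)
  have hl : Tendsto (fun s : ℝ => p + s • v) (𝓝 0) (𝓝 p) := by
    have h := (ULEV_hline p v 0).continuousAt.tendsto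
    simpa using h
  have e1 : deriv (fun s : ℝ => g (p + s • v)) =ᶠ[𝓝 0] fun s => fderiv ℝ g (p + s • v) v := by
    filter_upwards [hl.eventually h1] with s hs
    exact (hs.hasFDerivAt.comp_hasDerivAt s (ULEV_hline p v s)).deriv
  rw [e1.deriv_eq]
  have h0 : HasFDerivAt (fderiv ℝ g) (fderiv ℝ (fderiv ℝ g) p) (p + (0 : ℝ) • v) := by
    rw [zero_smul, add_zero]
    exact h2.hasFDerivAt
  have h3 := h0.comp_hasDerivAt 0 (ULEV_hline p v 0)
  have h4 := h3.clm_apply (hasDerivAt_const (0 : ℝ) v)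
  have h5 := h4.deriv
  simpa using h5

theorem ULEV_conjmul {c d : ℝ → ℂ} {c' d' : ℂ} {s : ℝ} (hc : HasDerivAt c c' s) (hd : HasDerivAt d d' s) :
    HasDerivAt (fun s => ((starRingEnd ℂ) (c s) * d s).re)
      ((starRingEnd ℂ) c' * d s + (starRingEnd ℂ) (c s) * d').re s := by
  have h1 : HasDerivAt (fun s => (starRingEnd ℂ) (c s)) ((starRingEnd ℂ) c') s :=
    (Complex.conjCLE.toContinuousLinearMap.hasFDerivAt.comp_hasDerivAt s hc)
  exact Complex.reCLM.hasFDerivAt.comp_hasDerivAt s (h1.mul hd)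

theorem ULEV_normSq {c : ℝ → ℂ} {c' : ℂ} {s : ℝ} (hc : HasDerivAt c c' s) :
    HasDerivAt (fun s => Complex.normSq (c s)) (2 * ((starRingEnd ℂ) (c s) * c').re) s := by
  have h := ULEV_conjmul hc hc
  have e1 : (fun s => ((starRingEnd ℂ) (c s) * c s).re) = fun s => Complex.normSq (c s) := by
    ext s
    rw [← Complex.normSq_eq_conj_mul_self, Complex.ofReal_re]
  have e2 : ((starRingEnd ℂ) c' * c s + (starRingEnd ℂ) (c s) * c').re = 2 * ((starRingEnd ℂ) (c s) * c').re := by
    simp only [Complex.add_re, Complex.mul_re, Complex.conj_re, Complex.conj_im]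
    ring
  rwa [e1, e2] at h

/-- second derivative of the logarithm along a line -/
theorem ULEV_second {c1 c2 d1 d2 : ℝ → ℂ} {k1 k2 : ℂ} (a ε : ℝ)
    (h1 : ∀ᶠ s in 𝓝 (0 : ℝ), HasDerivAt c1 (d1 s) s) (h2 : ∀ᶠ s in 𝓝 (0 : ℝ), HasDerivAt c2 (d2 s) s)
    (h3 : HasDerivAt d1 k1 0) (h4 : HasDerivAt d2 k2 0)
    (hN : Complex.normSq (c1 0) + a * Complex.normSq (c2 0) + ε ≠ 0) :
    deriv (deriv (fun s : ℝ => Real.log (Complex.normSq (c1 s) + a * Complex.normSq (c2 s) + ε))) 0 =
      (2 * (Complex.normSq (d1 0) + a * Complex.normSq (d2 0) +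
        ((starRingEnd ℂ) (c1 0) * k1).re + a * ((starRingEnd ℂ) (c2 0) * k2).re) *
          (Complex.normSq (c1 0) + a * Complex.normSq (c2 0) + ε) -
        4 * (((starRingEnd ℂ) (c1 0) * d1 0).re + a * ((starRingEnd ℂ) (c2 0) * d2 0).re) ^ 2) /
        (Complex.normSq (c1 0) + a * Complex.normSq (c2 0) + ε) ^ 2 := by
  have hNs : ∀ᶠ s in 𝓝 (0 : ℝ), HasDerivAt (fun s => Complex.normSq (c1 s) + a * Complex.normSq (c2 s) + ε)
      (2 * ((starRingEnd ℂ) (c1 s) * d1 s).re + a * (2 * ((starRingEnd ℂ) (c2 s) * d2 s).re)) s := by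
    filter_upwards [h1, h2] with s hs1 hs2
    exact ((ULEV_normSq hs1).add ((ULEV_normSq hs2).const_mul a)).add_const ε
  have hne : ∀ᶠ s in 𝓝 (0 : ℝ), Complex.normSq (c1 s) + a * Complex.normSq (c2 s) + ε ≠ 0 :=
    (hNs.self_of_nhds.continuousAt).eventually_ne hN
  have e1 : deriv (fun s : ℝ => Real.log (Complex.normSq (c1 s) + a * Complex.normSq (c2 s) + ε)) =ᶠ[𝓝 0]
      fun s => (2 * ((starRingEnd ℂ) (c1 s) * d1 s).re + a * (2 * ((starRingEnd ℂ) (c2 s) * d2 s).re)) /
        (Complex.normSq (c1 s) + a * Complex.normSq (c2 s) + ε) := by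
    filter_upwards [hNs, hne] with s hs hs'
    rw [(hs.log hs').deriv]
  rw [e1.deriv_eq]
  have h5 := ((((ULEV_conjmul h1.self_of_nhds h3).const_mul 2).add
    (((ULEV_conjmul h2.self_of_nhds h4).const_mul 2).const_mul a)).div hNs.self_of_nhds hN)
  have h6 := h5.deriv
  refine h6.trans ?_
  have e2 : ∀ d : ℂ, ((starRingEnd ℂ) d * d).re = Complex.normSq d := fun d => by
    rw [← Complex.normSq_eq_conj_mul_self, Complex.ofReal_re]
  simp only [Complex.add_re, e2, Pi.add_apply]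
  congr 1
  ring

theorem ULEV_contDiff_normSq : ContDiff ℝ 2 (Complex.normSq : ℂ → ℝ) := by
  have e : (Complex.normSq : ℂ → ℝ) = fun z => z.re * z.re + z.im * z.im := by
    ext z
    exact Complex.normSq_apply z
  rw [e]
  have h1 : ContDiff ℝ 2 (fun z : ℂ => z.re) := Complex.reCLM.contDiff
  have h2 : ContDiff ℝ 2 (fun z : ℂ => z.im) := Complex.imCLM.contDiff
  exact (h1.mul h1).add (h2.mul h2)

/-- the general formula -/
theorem ULEV_gen {V : Type} [NormedAddCommGroup V] [NormedSpace ℂ V] [NormedSpace ℝ V] [IsScalarTower ℝ ℂ V]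
    (f g : V → ℂ) (a ε : ℝ) (p ξ : V) (hf : AnalyticAt ℂ f p) (hg : AnalyticAt ℂ g p)
    (hN : Complex.normSq (f p) + a * Complex.normSq (g p) + ε ≠ 0) :
    (fderiv ℝ (fderiv ℝ (fun q => Real.log (Complex.normSq (f q) + a * Complex.normSq (g q) + ε))) p ξ ξ +
      fderiv ℝ (fderiv ℝ (fun q => Real.log (Complex.normSq (f q) + a * Complex.normSq (g q) + ε))) p (I • ξ) (I • ξ)) / 4 =
      (a * Complex.normSq (f p * fderiv ℂ g p ξ - g p * fderiv ℂ f p ξ) +
        ε * (Complex.normSq (fderiv ℂ f p ξ) + a * Complex.normSq (fderiv ℂ g p ξ))) /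
        (Complex.normSq (f p) + a * Complex.normSq (g p) + ε) ^ 2 := by
  have c1 : ContDiffAt ℝ 2 f p := (hf.contDiffAt (n := 2)).restrict_scalars ℝ
  have c2 : ContDiffAt ℝ 2 g p := (hg.contDiffAt (n := 2)).restrict_scalars ℝ
  have hA : ContDiffAt ℝ 2 (fun q => Real.log (Complex.normSq (f q) + a * Complex.normSq (g q) + ε)) p := by
    have hN2 : ContDiffAt ℝ 2 (fun t => Complex.normSq (f t) + a * Complex.normSq (g t) + ε) p :=
      ((ULEV_contDiff_normSq.contDiffAt.comp p c1).add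
        (contDiffAt_const.mul (ULEV_contDiff_normSq.contDiffAt.comp p c2))).add contDiffAt_const
    exact hN2.log hN
  rw [← ULEV_line _ p ξ hA, ← ULEV_line _ p (I • ξ) hA]
  have hl : ∀ v : V, Tendsto (fun s : ℝ => p + s • v) (𝓝 0) (𝓝 p) := by
    intro v
    have h := (ULEV_hline p v 0).continuousAt.tendsto
    simpa using h
  have hd : ∀ h : V → ℂ, AnalyticAt ℂ h p → ∀ v : V, ∀ᶠ s : ℝ in 𝓝 0,
      HasDerivAt (fun s : ℝ => h (p + s • v)) (fderiv ℂ h (p + s • v) v) s := by
    intro h hh v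
    filter_upwards [(hl v).eventually hh.eventually_analyticAt] with s hs
    have h1 : HasFDerivAt h ((fderiv ℂ h (p + s • v)).restrictScalars ℝ) (p + s • v) :=
      hs.differentiableAt.hasFDerivAt.restrictScalars ℝ
    exact h1.comp_hasDerivAt s (ULEV_hline p v s)
  have hd2 : ∀ h : V → ℂ, AnalyticAt ℂ h p → ∀ v : V,
      HasDerivAt (fun s : ℝ => fderiv ℂ h (p + s • v) v) (fderiv ℂ (fderiv ℂ h) p v v) 0 := by
    intro h hh v
    have h1 : DifferentiableAt ℂ (fderiv ℂ h) p := hh.fderiv.differentiableAt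
    have h2 : HasFDerivAt (fderiv ℂ h) ((fderiv ℂ (fderiv ℂ h) p).restrictScalars ℝ) (p + (0 : ℝ) • v) := by
      rw [zero_smul, add_zero]
      exact h1.hasFDerivAt.restrictScalars ℝ
    have h3 : HasDerivAt (fun s : ℝ => fderiv ℂ h (p + s • v))
        ((fderiv ℂ (fderiv ℂ h) p).restrictScalars ℝ v) 0 :=
      HasFDerivAt.comp_hasDerivAt (l := fderiv ℂ h) (f := fun s : ℝ => p + s • v) 0 h2 (ULEV_hline p v 0)
    have h4 : HasFDerivAt (fun L : V →L[ℂ] ℂ => L v)
        ((ContinuousLinearMap.apply ℂ ℂ v).restrictScalars ℝ) (fderiv ℂ h (p + (0 : ℝ) • v)) :=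
      ((ContinuousLinearMap.apply ℂ ℂ v).hasFDerivAt).restrictScalars ℝ
    exact h4.comp_hasDerivAt 0 h3
  have key : ∀ v : V, deriv (deriv (fun s : ℝ => Real.log (Complex.normSq (f (p + s • v)) +
      a * Complex.normSq (g (p + s • v)) + ε))) 0 = _ := fun v =>
    ULEV_second a ε (hd f hf v) (hd g hg v) (hd2 f hf v) (hd2 g hg v) (by simpa using hN)
  rw [key ξ, key (I • ξ)]
  simp only [zero_smul, add_zero, map_smul, _root_.smul_apply, smul_eq_mul]
  rw [← add_div, div_right_comm]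
  congr 1
  generalize fderiv ℂ (fderiv ℂ f) p ξ ξ = k1
  generalize fderiv ℂ (fderiv ℂ g) p ξ ξ = k2
  generalize fderiv ℂ f p ξ = d1
  generalize fderiv ℂ g p ξ = d2
  generalize f p = u1
  generalize g p = u2
  simp only [Complex.normSq_apply, Complex.sub_re, Complex.sub_im, Complex.mul_re,
      Complex.mul_im, Complex.conj_re, Complex.conj_im, Complex.I_re, Complex.I_im]
  ring

theorem ULEV : ULEV_stmt := by
  constructor
  · intro f g a ε p ξ hf hg ha hε hpos
    simp only [← Complex.normSq_eq_norm_sq] at hpos ⊢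
    exact ULEV_gen f g a ε p ξ hf hg hpos.ne'
  · intro f g z hf hg hne
    have hN : Complex.normSq (f z) + 1 * Complex.normSq (g z) + 0 ≠ 0 := by
      rcases hne with h | h
      · have := Complex.normSq_pos.2 h
        have := Complex.normSq_nonneg (g z)
        linarith
      · have := Complex.normSq_pos.2 h
        have := Complex.normSq_nonneg (f z)
        linarith
    have h := ULEV_gen f g 1 0 z 1 hf hg hN
    simp only [smul_eq_mul, mul_one, one_mul, add_zero, zero_mul] at h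
    simp only [← Complex.normSq_eq_norm_sq]
    unfold Lz
    rw [h]
    have e1 : ∀ k : ℂ → ℂ, fderiv ℂ k z 1 = deriv k z := fun k => rfl
    rw [e1, e1, ← Complex.normSq_neg, neg_sub]

end Pool.Agent.P2U
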