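import Pool.Agent.helper83.P2.SpecV
import Pool.Agent.helper80.P2.PSC

/-! p2, row VTT: telescoping along a disc. -/

set_option autoImplicit false

open scoped ContDiff Topology
open MeasureTheory Filter Set Metric MvPolynomial Pool.Agent.helper37.QA Pool.Agent.P2

namespace Pool.Agent.P2V

/-- the cocycle -/
noncomputable def VTT_a {d : ℕ} (f : Endo 2 d) (Λ : ℝ) (N : ℕ) (Z : ℂ → E3) (i n : ℕ) (z : ℂ) : ℝ :=
  pv f Λ n (N - i) (It f i (Z z)) (deriv (fun z => It f i (Z z)) z)

theorem VTT_Itcont {d : ℕ} (f : Endo 2 d) (n : ℕ) : Continuous (It f n) :=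
  continuous_pi fun i => (PSC_Itc f n i).continuous

theorem VTT_Itcd {d : ℕ} (f : Endo 2 d) (n : ℕ) : ContDiff ℂ ∞ (It f n) := contDiff_pi.mpr fun i => PSC_Itc f n i

theorem VTT_nqcont : Continuous (nq : E3 → ℝ) := by
  unfold nq
  exact continuous_finset_sum _ fun i _ => Complex.continuous_normSq.comp (continuous_apply i)

theorem VTT_crscont : Continuous (fun p : E3 × E3 => crs p.1 p.2) := by
  unfold crs
  refine continuous_pi fun i => ?_
  fin_cases i
  · show Continuous (fun p : E3 × E3 => p.1 1 * p.2 2 - p.1 2 * p.2 1)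
    fun_prop
  · show Continuous (fun p : E3 × E3 => p.1 2 * p.2 0 - p.1 0 * p.2 2)
    fun_prop
  · show Continuous (fun p : E3 × E3 => p.1 0 * p.2 1 - p.1 1 * p.2 0)
    fun_prop

theorem VTT_unmeas {d : ℕ} (f : Endo 2 d) (N : ℕ) : Measurable (un f N) := by
  unfold un
  have h1 : Measurable (fun Z : E3 => pq (It f N Z)) := by
    have h2 : Continuous (fun Z : E3 => pq (It f N Z)) := by
      unfold pq
      exact (Complex.continuous_normSq.comp (PSC_Itc f N 0).continuous).add
        (Complex.continuous_normSq.comp (PSC_Itc f N 1).continuous)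
    exact h2.measurable
  exact (((Real.measurable_log.comp h1).const_mul (1 / 2)).div_const _)

theorem VTT_pvmeas {d : ℕ} (f : Endo 2 d) (Λ : ℝ) (m N : ℕ) : Measurable (fun p : E3 × E3 => pv f Λ m N p.1 p.2) := by
  have hc1 : Continuous (fun p : E3 × E3 => fderiv ℂ (It f m) p.1 p.2) := by
    have h1 : Continuous (fun W : E3 => fderiv ℂ (It f m) W) := (VTT_Itcd f m).continuous_fderiv (by simp)
    exact (h1.comp continuous_fst).clm_apply continuous_snd
  have hc2 : Continuous (fun p : E3 × E3 => nq (crs (It f m p.1) (fderiv ℂ (It f m) p.1 p.2))) :=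
    VTT_nqcont.comp (VTT_crscont.comp (((VTT_Itcont f m).comp continuous_fst).prodMk hc1))
  have hc3 : Continuous (fun p : E3 × E3 => nq (crs p.1 p.2)) := VTT_nqcont.comp VTT_crscont
  have hu : Measurable (fun p : E3 × E3 => un f N p.1) := (VTT_unmeas f N).comp measurable_fst
  have hR : Measurable (fun p : E3 × E3 => Rv f m N p.1 p.2) := by
    unfold Rv
    exact (hc2.measurable.div hc3.measurable).mul
      (Real.measurable_exp.comp ((hu.const_mul 4).sub (hu.const_mul (4 * (d : ℝ) ^ m))))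
  unfold pv
  exact Real.measurable_log.comp (hR.add_const _)

theorem VTT_compae {g : E3 × E3 → ℝ} (hg : Measurable g) {W V : ℂ → E3}
    (hW : ContinuousOn W (ball (0 : ℂ) 1)) (hV : ContinuousOn V (ball (0 : ℂ) 1)) :
    AEMeasurable (fun z => g (W z, V z)) (volume.restrict (ball (0 : ℂ) 1)) := by
  have h3 : AEMeasurable (fun z => (W z, V z)) (volume.restrict (ball (0 : ℂ) 1)) := by
    have h4 : ContinuousOn (fun z => (W z, V z)) (ball (0 : ℂ) 1) := hW.prodMk hV
    exact h4.aemeasurable measurableSet_ball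
  exact hg.comp_aemeasurable h3

theorem VTT_pvae {d : ℕ} (f : Endo 2 d) (Λ : ℝ) (m N : ℕ) {W V : ℂ → E3}
    (hW : ContinuousOn W (ball (0 : ℂ) 1)) (hV : ContinuousOn V (ball (0 : ℂ) 1)) :
    AEMeasurable (fun z => pv f Λ m N (W z) (V z)) (volume.restrict (ball (0 : ℂ) 1)) := by
  have h := VTT_compae (g := fun p : E3 × E3 => pv f Λ m N p.1 p.2) (VTT_pvmeas f Λ m N) hW hV
  exact h

theorem VTT_ameas {d : ℕ} (f : Endo 2 d) (Λ : ℝ) (N : ℕ) (Z : ℂ → E3) (i n : ℕ)
    (hZ : DifferentiableOn ℂ (fun z => It f i (Z z)) (ball 0 1)) :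
    AEMeasurable (VTT_a f Λ N Z i n) (volume.restrict (ball 0 1)) := by
  have h1 : ContinuousOn (fun z => It f i (Z z)) (ball 0 1) := hZ.continuousOn
  have h2 : ContinuousOn (deriv (fun z => It f i (Z z))) (ball 0 1) := (hZ.deriv isOpen_ball).continuousOn
  have h := VTT_pvae f Λ n (N - i) h1 h2
  unfold VTT_a
  exact h

theorem VTT_eta0 {z : ℂ} (hz : z ∉ ball (0 : ℂ) 1) : eta z = 0 := by
  unfold eta
  apply Real.smoothTransition.zero_of_nonpos
  rw [mem_ball_zero_iff, not_lt] at hz
  rw [Complex.normSq_eq_norm_sq]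
  nlinarith

theorem VTT_tau0 {d : ℕ} (f : Endo 2 d) (N : ℕ) (Z : ℂ → E3) (z : ℂ) : 0 ≤ tau f N Z z := by
  unfold tau
  have := Complex.normSq_nonneg (It f N (Z z) 1 * deriv (fun z => It f N (Z z) 0) z - It f N (Z z) 0 * deriv (fun z => It f N (Z z) 1) z)
  positivity

/-- integrability and bound -/
theorem VTT_int {a w : ℂ → ℝ} {B : ℝ} (hB : 0 ≤ B) (hw : Integrable w) (hw0 : ∀ z, 0 ≤ w z) (hwz : ∀ z ∉ ball (0 : ℂ) 1, w z = 0)
    (ha : AEMeasurable a (volume.restrict (ball 0 1))) (hab : ∀ z ∈ ball (0 : ℂ) 1, |a z| ≤ B) :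
    Integrable (fun z => a z * w z) ∧ |∫ z, a z * w z| ≤ B * ∫ z, w z := by
  have hbd : ∀ z, ‖a z * w z‖ ≤ B * w z := by
    intro z
    rw [Real.norm_eq_abs, abs_mul, abs_of_nonneg (hw0 z)]
    by_cases hz : z ∈ ball (0 : ℂ) 1
    · exact mul_le_mul_of_nonneg_right (hab z hz) (hw0 z)
    · rw [hwz z hz, mul_zero, mul_zero]
  have hind : (fun z => a z * w z) = (ball (0 : ℂ) 1).indicator (fun z => a z * w z) := by
    funext z
    by_cases hz : z ∈ ball (0 : ℂ) 1
    · rw [indicator_of_mem hz]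
    · rw [indicator_of_notMem hz, hwz z hz, mul_zero]
  have hmeas : AEStronglyMeasurable (fun z => a z * w z) volume := by
    rw [hind, aestronglyMeasurable_indicator_iff measurableSet_ball]
    exact ha.aestronglyMeasurable.mul hw.aestronglyMeasurable.restrict
  have hint : Integrable (fun z => a z * w z) := (hw.const_mul B).mono' hmeas (Eventually.of_forall hbd)
  refine ⟨hint, ?_⟩
  rw [← Real.norm_eq_abs, ← integral_const_mul]
  exact norm_integral_le_of_norm_le (hw.const_mul B) (Eventually.of_forall hbd)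

theorem VTT (hUN1 : UN1_stmt) (hVTL : VTL_stmt) (hVIT : VIT_stmt) (hVSA : VSA_stmt) : VTT_stmt := by
  intro d f U Λ hd hU hΛ
  obtain ⟨C, hC, hS⟩ := hVSA d f U hd hU
  have hC1 : 0 ≤ C + Λ := by linarith
  refine ⟨3 * (C + Λ), by linarith, ?_⟩
  intro m L N Z hm hmL hLN hZ hmass
  have hd0 : (0 : ℝ) < d := by
    have : (2 : ℝ) ≤ d := by exact_mod_cast hd
    linarith
  have hV : ∀ k, k ≤ N → _ := fun k hk => hVIT d f U hd hU k N hk
  have hZi : ∀ i, i ≤ N → Dsc U (fun z => It f i (Z z)) := fun i hi => ((hV i hi).2.2 Z hZ).1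
  -- the weight
  set w : ℂ → ℝ := fun z => eta z ^ 2 * tau f N Z z with hwdef
  have hw0 : ∀ z, 0 ≤ w z := fun z => mul_nonneg (sq_nonneg _) (VTT_tau0 f N Z z)
  have hwz : ∀ z ∉ ball (0 : ℂ) 1, w z = 0 := by
    intro z hz
    rw [hwdef]
    dsimp only
    rw [VTT_eta0 hz]
    ring
  have hwM : ∫ z, w z = mass f N Z := rfl
  have hwint : Integrable w := by
    by_contra hc
    have : ∫ z, w z = 0 := integral_undef hc
    rw [hwM] at this
    linarith
  -- the bound of the cocycle
  have hab : ∀ i n, i + n ≤ N → ∀ z ∈ ball (0 : ℂ) 1, |VTT_a f Λ N Z i n z| ≤ (C + Λ) * (n + 1) := by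
    intro i n hin z hz
    exact (hS Λ n 0 (N - i) hΛ (by omega) (It f i (Z z)) ((hZi i (by omega)).2 z hz) _).2.2.2.2
  have hInt : ∀ i n, i + n ≤ N → Integrable (fun z => VTT_a f Λ N Z i n z * w z) ∧
      |∫ z, VTT_a f Λ N Z i n z * w z| ≤ (C + Λ) * (n + 1) * ∫ z, w z := by
    intro i n hin
    exact VTT_int (by positivity) hwint hw0 hwz (VTT_ameas f Λ N Z i n (hZi i (by omega)).1) (hab i n hin)
  -- the functional
  have hTf : ∀ i n, i + n ≤ N → Tf f Λ n (N - i) (fun z => It f i (Z z)) = (∫ z, VTT_a f Λ N Z i n z * w z) / mass f N Z := by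
    intro i n hin
    obtain ⟨-, -, h3, h4, -⟩ := (hV i (by omega)).2.2 Z hZ |>.2
    unfold Tf
    have e1 : ∀ z, eta z ^ 2 * (pv f Λ n (N - i) (It f i (Z z)) (deriv (fun z => It f i (Z z)) z) * tau f (N - i) (fun z => It f i (Z z)) z) =
        (d : ℝ) ^ i * (VTT_a f Λ N Z i n z * w z) := by
      intro z
      have := (((hV i (by omega)).2.2 Z hZ).2.2.1 z)
      rw [this]
      show _ = (d : ℝ) ^ i * (pv f Λ n (N - i) (It f i (Z z)) (deriv (fun z => It f i (Z z)) z) * (eta z ^ 2 * tau f N Z z))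
      ring
    have e2 := ((hV i (by omega)).2.2 Z hZ).2.2.2.1
    rw [integral_congr_ae (Eventually.of_forall e1), integral_const_mul, e2]
    have hdi : (d : ℝ) ^ i ≠ 0 := pow_ne_zero _ hd0.ne'
    rw [mul_div_mul_left _ _ hdi]
  -- the pointwise inequality
  have hpt : ∀ z ∈ ball (0 : ℂ) 1, m * VTT_a f Λ N Z 0 L z ≤
      (∑ i ∈ Finset.range L, VTT_a f Λ N Z i m z) + 3 * (C + Λ) * (m + 1) ^ 2 := by
    intro z hz
    refine hVTL (fun i n => VTT_a f Λ N Z i n z) (C + Λ) m L N hC1 hm hmL hLN ?_ (fun i n hin => hab i n hin z hz)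
    intro i n k hink
    have h1 := (hS Λ n k (N - i) hΛ (by omega) (It f i (Z z)) ((hZi i (by omega)).2 z hz) (deriv (fun z => It f i (Z z)) z)).2.1
    have e1 : N - i - n = N - (i + n) := by omega
    have e2 : ∀ z, It f n (It f i (Z z)) = It f (i + n) (Z z) := by
      intro z
      rw [Nat.add_comm i n]
      exact (pmap_iter_add f.F n i (Z z)).symm
    have e3 : fderiv ℂ (It f n) (It f i (Z z)) (deriv (fun z => It f i (Z z)) z) = deriv (fun z => It f (i + n) (Z z)) z := by
      have h2 := ((hV n (by omega)).2.2 (fun z => It f i (Z z)) (hZi i (by omega))).2.2.2.2.2 z hz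
      rw [← h2]
      congr 1
      funext z
      exact e2 z
    rw [e1, e2, e3] at h1
    exact h1
  have hM := hmass
  have h0L := hInt 0 L (by omega)
  have hineq : (m : ℝ) * ∫ z, VTT_a f Λ N Z 0 L z * w z ≤
      (∑ i ∈ Finset.range L, ∫ z, VTT_a f Λ N Z i m z * w z) + 3 * (C + Λ) * (m + 1) ^ 2 * mass f N Z := by
    rw [← integral_const_mul, ← integral_finset_sum _ (fun i hi => (hInt i m (by
      have := Finset.mem_range.mp hi
      omega)).1), ← hwM, ← integral_const_mul, ← integral_add]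
    · apply integral_mono (h0L.1.const_mul _)
      · apply Integrable.add
        · exact integrable_finset_sum _ fun i hi => (hInt i m (by
            have := Finset.mem_range.mp hi
            omega)).1
        · exact hwint.const_mul _
      · intro z
        show (m : ℝ) * (VTT_a f Λ N Z 0 L z * w z) ≤
          (∑ i ∈ Finset.range L, VTT_a f Λ N Z i m z * w z) + 3 * (C + Λ) * (m + 1) ^ 2 * w z
        by_cases hz : z ∈ ball (0 : ℂ) 1
        · have h1 := mul_le_mul_of_nonneg_right (hpt z hz) (hw0 z)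
          rw [← Finset.sum_mul]
          linarith
        · rw [hwz z hz]
          simp
    · exact integrable_finset_sum _ fun i hi => (hInt i m (by
        have := Finset.mem_range.mp hi
        omega)).1
    · exact hwint.const_mul _
  have e0 : (fun z => It f 0 (Z z)) = Z := by
    funext z
    exact pmap_iter_zero f.F (Z z)
  constructor
  · have h1 : Tf f Λ L N Z = (∫ z, VTT_a f Λ N Z 0 L z * w z) / mass f N Z := by
      have := hTf 0 L (by omega)
      rw [Nat.sub_zero, e0] at this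
      exact this
    have h2 : ∑ i ∈ Finset.range L, Tf f Λ m (N - i) (fun z => It f i (Z z)) =
        (∑ i ∈ Finset.range L, ∫ z, VTT_a f Λ N Z i m z * w z) / mass f N Z := by
      rw [Finset.sum_div]
      refine Finset.sum_congr rfl fun i hi => hTf i m ?_
      have := Finset.mem_range.mp hi
      omega
    rw [h1, h2]
    rw [← mul_div_assoc, div_add' _ _ _ hM.ne', div_le_div_iff_of_pos_right hM]
    exact hineq
  · have h1 : Tf f Λ m N Z = (∫ z, VTT_a f Λ N Z 0 m z * w z) / mass f N Z := by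
      have := hTf 0 m (by omega)
      rw [Nat.sub_zero, e0] at this
      exact this
    rw [h1, abs_div, abs_of_pos hM, div_le_iff₀ hM]
    refine (hInt 0 m (by omega)).2.trans ?_
    rw [hwM]
    apply mul_le_mul_of_nonneg_right _ hM.le
    have : 0 ≤ (C + Λ) * ((m : ℝ) + 1) := by positivity
    linarith

end Pool.Agent.P2V
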